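import Pool.Agent.H18.Mo.Kill
import Pool.Agent.H18.L.N902.EW.Ei

/-!
# Algebraic independence of the Poisson means of all multiple harmonic sums
-/

set_option autoImplicit false
set_option linter.unusedSectionVars false

open PowerSeries Set

namespace Pool.Agent.H18.Mo

open Pool.Agent.N902.EW Pool.Agent.H18.Sq

/-- the values of smaller depth -/
def SVd (X : Set Qb) (d : ℕ) : Set ℂ := {z | ∃ (x : X) (s : List ℕ), s.length < d ∧ z = evA io (Fs x.1 s)}

theorem mq_nil_ne : (mq [] : AA Qb) ≠ 0 := by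
  intro h
  rw [mq_eq adm_nil] at h
  have h3 := congrArg (evA io) h
  rw [evA_mk, evk_ex_zero, U_nil, evk_one, map_zero, mul_one] at h3
  exact one_ne_zero h3

theorem ai_level (X : Set Qb) (hX : ∀ x ∈ X, ∀ y ∈ X, x + y ≠ 0) (hX0 : ∀ x : X, x.1 ≠ 0) {d : ℕ} (hd : 0 < d) :
    AlgebraicIndependent (IntermediateField.adjoin ℚ (GG ∪ SVd X d))
      (fun p : X × {s : List ℕ // s.length = d} => evA io (Fs p.1.1 p.2.1)) := by
  classical
  have hne : ∀ p : X × {s : List ℕ // s.length = d}, p.2.1 ≠ [] := by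
    intro p h
    have h1 := p.2.2
    rw [h] at h1
    simp at h1
    omega
  choose D hD hD' using fun p : X × {s : List ℕ // s.length = d} => exists_dual (hX0 p.1) (hne p)
  have hLo : ∀ p, Lo p.1.1 d d (D p) := fun p => by
    have := hD p
    rwa [p.2.2] at this
  refine ai_general (GG ∪ SVd X d) (fun p : X × {s : List ℕ // s.length = d} => Fs p.1.1 p.2.1) D (fun z hz => ?_)
    (fun _ => mq []) (fun _ => mq_nil_ne) (fun p => ?_) (fun p r hpr => ?_)
  · rcases hz with ((hz | ⟨b, rfl⟩) | ⟨w, hw, hno, rfl⟩) | ⟨y, s, hs, rfl⟩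
    · refine ⟨algebraMap Qb (AA Qb) ⟨z, mem_algebraicClosure_iff'.2 hz.isIntegral⟩, evA_algebraMap _, fun p => ?_⟩
      exact Derivation.map_algebraMap _ _
    · refine ⟨mk b [] adm_nil, ?_, fun p => D_noOpp (hX0 p.1) hd (hLo p) b _ (fun a ha => absurd ha (by simp))⟩
      rw [evA_mk, U_nil, evk_one, mul_one]
    · refine ⟨mk 0 w hw, ?_, fun p => D_noOpp (hX0 p.1) hd (hLo p) 0 _ hno⟩
      rw [evA_mk, evk_ex_zero, one_mul]
    · refine ⟨_, rfl, fun p => ?_⟩
      by_cases h : p.1.1 = y.1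
      · rw [← h]
        exact D_Fs_lt (hX0 p.1) hs (hLo p)
      · exact D_Fs_ne (hX0 p.1) h (hX _ p.1.2 _ y.2) s hd (hLo p)
  · rw [D_Fs (hX0 p.1) (hne p) (hD p), hD' p _ _ rfl, if_pos rfl]
  · by_cases h1 : p.1.1 = r.1.1
    · have h2 : Lo r.1.1 r.2.1.length r.2.1.length (D p) := by
        rw [r.2.2, ← h1]; exact hLo p
      have h3 : r.2.1 ≠ p.2.1 := fun h => hpr (Prod.ext (Subtype.ext h1) (Subtype.ext h.symm))
      rw [D_Fs (hX0 r.1) (hne r) h2, ← h1, hD' p _ _ (r.2.2.trans p.2.2.symm), if_neg h3]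
    · exact D_Fs_ne (hX0 p.1) h1 (hX _ p.1.2 _ r.1.2) _ hd (hLo p)

theorem ai_upto (X : Set Qb) (hX : ∀ x ∈ X, ∀ y ∈ X, x + y ≠ 0) (hX0 : ∀ x : X, x.1 ≠ 0) (n : ℕ) :
    AlgebraicIndependent (IntermediateField.adjoin ℚ GG)
      (fun p : {p : X × List ℕ // p.2 ≠ [] ∧ p.2.length ≤ n} => evA io (Fs p.1.1.1 p.1.2)) := by
  induction n with
  | zero =>
    have : IsEmpty {p : X × List ℕ // p.2 ≠ [] ∧ p.2.length ≤ 0} :=
      ⟨fun p => p.2.1 (List.length_eq_zero_iff.1 (Nat.le_zero.1 p.2.2))⟩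
    exact algebraicIndependent_empty_type
  | succ n ih =>
    have hle : IntermediateField.adjoin ℚ GG ≤ IntermediateField.adjoin ℚ (GG ∪ SVd X (n + 1)) :=
      IntermediateField.adjoin.mono _ _ _ subset_union_left
    let _ : Algebra (IntermediateField.adjoin ℚ GG) (IntermediateField.adjoin ℚ (GG ∪ SVd X (n + 1))) :=
      (IntermediateField.inclusion hle).toRingHom.toAlgebra
    have : IsScalarTower (IntermediateField.adjoin ℚ GG) (IntermediateField.adjoin ℚ (GG ∪ SVd X (n + 1))) ℂ :=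
      IsScalarTower.of_algebraMap_eq fun _ => rfl
    have h := ih.sumElim_of_tower (S := IntermediateField.adjoin ℚ (GG ∪ SVd X (n + 1))) (by
      rintro _ ⟨p, rfl⟩
      exact ⟨⟨_, IntermediateField.subset_adjoin _ _ (Or.inr ⟨p.1.1, p.1.2, by have := p.2.2; omega, rfl⟩)⟩, rfl⟩)
      (ai_level X hX hX0 (Nat.succ_pos n))
    let g : {p : X × List ℕ // p.2 ≠ [] ∧ p.2.length ≤ n + 1} →
        (X × {s : List ℕ // s.length = n + 1}) ⊕ {p : X × List ℕ // p.2 ≠ [] ∧ p.2.length ≤ n} := fun p =>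
      if h : p.1.2.length = n + 1 then Sum.inl (p.1.1, ⟨p.1.2, h⟩) else
        Sum.inr ⟨p.1, p.2.1, by have := p.2.2; omega⟩
    have hg : Function.Injective g := by
      intro p q hpq
      by_cases h1 : p.1.2.length = n + 1
      · by_cases h2 : q.1.2.length = n + 1
        · simp only [g, dif_pos h1, dif_pos h2] at hpq
          have h3 := Sum.inl.inj hpq
          have h4 := congrArg Prod.fst h3
          have h5 := congrArg (fun z => z.2.1) h3
          exact Subtype.ext (Prod.ext h4 h5)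
        · simp only [g, dif_pos h1, dif_neg h2] at hpq
          exact absurd hpq (by simp)
      · by_cases h2 : q.1.2.length = n + 1
        · simp only [g, dif_neg h1, dif_pos h2] at hpq
          exact absurd hpq (by simp)
        · simp only [g, dif_neg h1, dif_neg h2] at hpq
          have h3 := Sum.inr.inj hpq
          have h4 := congrArg Subtype.val h3
          exact Subtype.ext h4
    have h2 := h.comp g hg
    convert h2 using 1
    funext p
    by_cases h1 : p.1.2.length = n + 1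
    · simp only [g, Function.comp, dif_pos h1, Sum.elim_inl]
    · simp only [g, Function.comp, dif_neg h1, Sum.elim_inr]

/-- the whole family -/
theorem ai_all (X : Set Qb) (hX : ∀ x ∈ X, ∀ y ∈ X, x + y ≠ 0) (hX0 : ∀ x : X, x.1 ≠ 0) :
    AlgebraicIndependent (IntermediateField.adjoin ℚ GG)
      (fun p : {p : X × List ℕ // p.2 ≠ []} => evA io (Fs p.1.1.1 p.1.2)) := by
  refine algebraicIndependent_of_finite_type fun T hT => ?_
  obtain ⟨N, hN⟩ : ∃ N : ℕ, ∀ p ∈ T, p.1.2.length ≤ N := by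
    obtain ⟨N, hN⟩ := (hT.image fun p => p.1.2.length).bddAbove
    exact ⟨N, fun p hp => hN ⟨p, hp, rfl⟩⟩
  refine (ai_upto X hX hX0 N).comp (fun p : T => (⟨p.1.1, p.1.2, hN p.1 p.2⟩ :
    {p : X × List ℕ // p.2 ≠ [] ∧ p.2.length ≤ N})) ?_
  intro p q hpq
  have h4 := congrArg Subtype.val hpq
  exact Subtype.ext (Subtype.ext h4)

/-! ### The values -/

/-- the Poisson means of the multiple harmonic sums (the exponents are the entries plus two) -/
noncomputable def PM (s : List ℕ) (x : ℂ) : ℂ := Complex.exp (-x) * ∑' j : ℕ, x ^ j / j.factorial * hs ℂ s j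

theorem GS_mem {x : Qb} (hx : x ≠ 0) {s : List ℕ} (hs' : s ≠ []) : GS x s ∈ SA Qb := by
  have h1 : GS x s = ex x * (ex (-x) * GS x s) := by
    rw [← mul_assoc, ← ex_add, add_neg_cancel, ex_zero, one_mul]
  rw [h1, ← Fs_val hx s hs']
  refine SA_mul ?_ (Fs x s).2
  exact Submodule.subset_span ⟨x, [], trivial, by rw [U_nil, mul_one]⟩

theorem map_hs {K L : Type*} [Field K] [Field L] (φ : K →+* L) (s : List ℕ) : ∀ n : ℕ, φ (hs K s n) = hs L s n := by
  induction s with
  | nil => intro n; exact map_one φ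
  | cons m s ih =>
    intro n
    rw [hs, hs, map_sum]
    refine Finset.sum_congr rfl fun b _ => ?_
    rw [map_div₀, ih, map_pow, map_add, map_natCast, map_one]

theorem evA_Fs {x : Qb} (hx : x ≠ 0) {s : List ℕ} (hs' : s ≠ []) : evA io (Fs x s) = PM s (io x) := by
  rw [evA_apply, Fs_val hx s hs', evk_mul (EFK.ex _) (EFK.of_mem (GS_mem hx hs')), evk_ex, PM, map_neg]
  congr 1
  rw [evk]
  refine tsum_congr fun n => ?_
  rw [GS, coeff_mk, map_mul, map_div₀, map_pow, map_natCast, map_hs]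

/-- the values are algebraically independent over the base field -/
theorem ai_PM (X : Set ℂ) (hX : ∀ x ∈ X, IsAlgebraic ℚ x ∧ ∀ y ∈ X, x + y ≠ 0) :
    AlgebraicIndependent KK (fun p : {p : X × List ℕ // p.2 ≠ []} => PM p.1.2 p.1.1.1) := by
  have hne : ∀ x ∈ X, x ≠ 0 := by
    intro x hx h0
    exact (hX x hx).2 x hx (by rw [h0, add_zero])
  let X' : Set Qb := {x | io x ∈ X}
  have hX' : ∀ x ∈ X', ∀ y ∈ X', x + y ≠ 0 := by
    intro x hx y hy h
    refine (hX _ hx).2 _ hy ?_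
    rw [← map_add, h, map_zero]
  have hX0 : ∀ x : X', x.1 ≠ 0 := fun x h => hne _ x.2 (by rw [h, map_zero])
  have h1 := ai_all X' hX' hX0
  rw [GG_eq] at h1
  choose f hf using fun x : X => mem_range_io (hX x.1 x.2).1
  have hfX : ∀ x : X, io (f x) ∈ X := fun x => by rw [hf]; exact x.2
  let g : {p : X × List ℕ // p.2 ≠ []} → {p : X' × List ℕ // p.2 ≠ []} := fun p => ⟨(⟨f p.1.1, hfX _⟩, p.1.2), p.2⟩
  have hg : Function.Injective g := by
    intro p q h
    have e1 : f p.1.1 = f q.1.1 := congrArg (fun z => z.1.1.1) h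
    have e2 : p.1.2 = q.1.2 := congrArg (fun z => z.1.2) h
    have e4 : p.1.1.1 = q.1.1.1 := by
      have := congrArg io e1
      rwa [hf, hf] at this
    exact Subtype.ext (Prod.ext (Subtype.ext e4) e2)
  have h2 := h1.comp g hg
  have h3 : (fun p : {p : X' × List ℕ // p.2 ≠ []} => evA io (Fs p.1.1.1 p.1.2)) ∘ g =
      fun p : {p : X × List ℕ // p.2 ≠ []} => PM p.1.2 p.1.1.1 := by
    funext p
    show evA io (Fs (f p.1.1) p.1.2) = PM p.1.2 p.1.1.1
    rw [evA_Fs (hX0 ⟨f p.1.1, hfX _⟩) p.2, hf]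
  rw [h3] at h2
  exact h2

end Pool.Agent.H18.Mo
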