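import Pool.Agent.H18.Sq.Der

/-!
# Derivations dual to the alternating words
-/

set_option autoImplicit false
set_option linter.unusedSectionVars false

open PowerSeries

namespace Pool.Agent.H18.Mo

open Pool.Agent.N902.EW Pool.Agent.H18.Sq

variable {K : Type*} [Field K] [CharZero K]

/-! ### The number of occurrences of a letter -/

open Classical in
/-- the number of occurrences of the letter `y` -/
noncomputable def ct (y : K) : List K → ℕ
  | [] => 0
  | a :: v => ct y v + if a = y then 1 else 0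

theorem ct_cons_self (y : K) (v : List K) : ct y (y :: v) = ct y v + 1 := by
  rw [ct, if_pos rfl]

theorem ct_cons_ne {y a : K} (h : a ≠ y) (v : List K) : ct y (a :: v) = ct y v := by
  rw [ct, if_neg h, add_zero]

theorem ct_le (y a : K) (v : List K) : ct y v ≤ ct y (a :: v) := by
  rw [ct]; exact Nat.le_add_right _ _

open Classical in
/-- the element of a word -/
noncomputable def mq (w : List K) : AA K := if h : Adm w then mk 0 w h else 0

theorem mq_eq {w : List K} (h : Adm w) : mq w = mk 0 w h := dif_pos h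

/-- the span of the words in which `y` occurs less than `n` times -/
noncomputable def Cn (y : K) (n : ℕ) : Submodule K (AA K) :=
  Submodule.span K {f | ∃ (l : K) (w : List K) (h : Adm w), ct y w < n ∧ f = mk l w h}

theorem mk_mem_Cn {y : K} {n : ℕ} (l : K) {w : List K} (h : Adm w) (hy : ct y w < n) : mk l w h ∈ Cn y n :=
  Submodule.subset_span ⟨l, w, h, hy, rfl⟩

theorem mq_mem_Cn {y : K} {n : ℕ} {w : List K} (hy : ct y w < n) : mq w ∈ Cn y n := by
  rw [mq]
  split_ifs with h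
  · exact mk_mem_Cn 0 h hy
  · exact Submodule.zero_mem _

theorem Cn_mono (y : K) {m n : ℕ} (h : m ≤ n) : Cn y m ≤ Cn y n := by
  refine Submodule.span_mono ?_
  rintro _ ⟨l, w, hw, hy, rfl⟩
  exact ⟨l, w, hw, lt_of_lt_of_le hy h, rfl⟩

theorem Cn_zero {y : K} {f : AA K} (hf : f ∈ Cn y 0) : f = 0 := by
  refine Submodule.span_induction (p := fun f _ => f = 0) ?_ ?_ ?_ ?_ hf
  · rintro _ ⟨l, w, h, hy, rfl⟩
    exact absurd hy (Nat.not_lt_zero _)
  · rfl
  · intro x y _ _ hx hy; rw [hx, hy, add_zero]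
  · intro c x _ hx; rw [hx, smul_zero]

theorem DA_Cn (a y : K) (n : ℕ) {f : AA K} (hf : f ∈ Cn y n) : DA a f ∈ Cn y n := by
  refine Submodule.span_induction (p := fun f _ => DA a f ∈ Cn y n) ?_ ?_ ?_ ?_ hf
  · rintro _ ⟨l, w, h, hy, rfl⟩
    rcases w with _ | ⟨b, v⟩
    · rw [DA_nil]; exact Submodule.zero_mem _
    · by_cases hab : b = a
      · subst hab
        rw [DA_self]
        exact mk_mem_Cn _ _ (lt_of_le_of_lt (ct_le _ _ _) hy)
      · rw [DA_ne hab]; exact Submodule.zero_mem _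
  · rw [map_zero]; exact Submodule.zero_mem _
  · intro x y _ _ hx hy; rw [map_add]; exact Submodule.add_mem _ hx hy
  · intro c x _ hx; rw [Derivation.map_smul]; exact Submodule.smul_mem _ _ hx

theorem DA_Cn_self (y : K) (n : ℕ) {f : AA K} (hf : f ∈ Cn y (n + 1)) : DA y f ∈ Cn y n := by
  refine Submodule.span_induction (p := fun f _ => DA y f ∈ Cn y n) ?_ ?_ ?_ ?_ hf
  · rintro _ ⟨l, w, h, hy, rfl⟩
    rcases w with _ | ⟨b, v⟩
    · rw [DA_nil]; exact Submodule.zero_mem _
    · by_cases hab : b = y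
      · subst hab
        rw [DA_self]
        rw [ct_cons_self] at hy
        exact mk_mem_Cn _ _ (by omega)
      · rw [DA_ne hab]; exact Submodule.zero_mem _
  · rw [map_zero]; exact Submodule.zero_mem _
  · intro x y _ _ hx hy; rw [map_add]; exact Submodule.add_mem _ hx hy
  · intro c x _ hx; rw [Derivation.map_smul]; exact Submodule.smul_mem _ _ hx

/-- the derivations of the algebra -/
abbrev DD (K : Type*) [Field K] [CharZero K] : Type _ := Derivation K (AA K) (AA K)

/-- the derivation lowers the number of the occurrences of `y` by `k` -/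
def Lw (y : K) (k : ℕ) (D : DD K) : Prop := ∀ (n : ℕ) (f : AA K), f ∈ Cn y (n + k) → D f ∈ Cn y n

theorem Lw.kill {y : K} {k : ℕ} {D : DD K} (h : Lw y k D) {f : AA K} (hf : f ∈ Cn y k) : D f = 0 :=
  Cn_zero (h 0 f (by rwa [zero_add]))

theorem Lw.comm {y : K} {k l : ℕ} {D E : DD K} (hD : Lw y k D) (hE : Lw y l E) : Lw y (k + l) ⁅D, E⁆ := by
  intro n f hf
  rw [Derivation.commutator_apply]
  refine Submodule.sub_mem _ (hD _ _ (hE _ _ ?_)) (hE _ _ (hD _ _ ?_))
  · rwa [add_assoc]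
  · rwa [add_assoc, add_comm l k]

theorem Lw.add {y : K} {k : ℕ} {D E : DD K} (hD : Lw y k D) (hE : Lw y k E) : Lw y k (D + E) := by
  intro n f hf
  rw [Derivation.add_apply]
  exact Submodule.add_mem _ (hD _ _ hf) (hE _ _ hf)

theorem Lw.smul {y : K} {k : ℕ} {D : DD K} (c : K) (hD : Lw y k D) : Lw y k (c • D) := by
  intro n f hf
  rw [Derivation.smul_apply]
  exact Submodule.smul_mem _ _ (hD _ _ hf)

theorem Lw.sub {y : K} {k : ℕ} {D E : DD K} (hD : Lw y k D) (hE : Lw y k E) : Lw y k (D - E) := by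
  intro n f hf
  rw [Derivation.sub_apply]
  exact Submodule.sub_mem _ (hD _ _ hf) (hE _ _ hf)

theorem Lw_DA (a y : K) : Lw y 0 (DA a) := fun _ _ hf => DA_Cn _ _ _ hf

theorem Lw_DA_self (y : K) : Lw y 1 (DA y) := fun _ _ hf => DA_Cn_self _ _ hf

theorem Ek_def (x : K) (n : ℕ) : Ek x (n + 1) = ⁅(DA 0 : DD K), Ek x n⁆ := rfl

theorem Lw_Ek (x y : K) (n : ℕ) : Lw y 0 (Ek x n) := by
  induction n with
  | zero => exact Lw_DA _ _
  | succ n ih =>
    have h := (Lw_DA 0 y).comm ih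
    rw [Ek_def]
    rwa [add_zero] at h

theorem Lw_Ek_self (x : K) (n : ℕ) : Lw x 1 (Ek x n) := by
  induction n with
  | zero => exact Lw_DA_self _
  | succ n ih =>
    have h := (Lw_DA 0 x).comm ih
    rw [Ek_def]
    rwa [zero_add] at h

/-- both letters -/
def Lo (x : K) (a b : ℕ) (D : DD K) : Prop := Lw x a D ∧ Lw (-x) b D

theorem Lo.comm {x : K} {a b c d : ℕ} {D E : DD K} (hD : Lo x a b D) (hE : Lo x c d E) : Lo x (a + c) (b + d) ⁅D, E⁆ :=
  ⟨hD.1.comm hE.1, hD.2.comm hE.2⟩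

theorem Lo.add {x : K} {a b : ℕ} {D E : DD K} (hD : Lo x a b D) (hE : Lo x a b E) : Lo x a b (D + E) :=
  ⟨hD.1.add hE.1, hD.2.add hE.2⟩

theorem Lo.sub {x : K} {a b : ℕ} {D E : DD K} (hD : Lo x a b D) (hE : Lo x a b E) : Lo x a b (D - E) :=
  ⟨hD.1.sub hE.1, hD.2.sub hE.2⟩

theorem Lo.smul {x : K} {a b : ℕ} {D : DD K} (c : K) (hD : Lo x a b D) : Lo x a b (c • D) :=
  ⟨hD.1.smul c, hD.2.smul c⟩

theorem Lo_Ek (x : K) (n : ℕ) : Lo x 1 0 (Ek x n) := ⟨Lw_Ek_self x n, Lw_Ek _ _ _⟩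

theorem Lo_Ek_neg (x : K) (n : ℕ) : Lo x 0 1 (Ek (-x) n) := ⟨Lw_Ek _ _ _, Lw_Ek_self (-x) n⟩

/-! ### The action on words -/

theorem DA_mq_self {a : K} {v : List K} (h : a ≠ 0 ∨ v ≠ []) : DA a (mq (a :: v)) = mq v := by
  by_cases hv : Adm v
  · have h1 : Adm (a :: v) := ⟨hv, fun h' => h.resolve_right (fun h'' => h'' h')⟩
    rw [mq_eq h1, DA_self, mq_eq hv]
  · have h1 : ¬ Adm (a :: v) := fun h' => hv h'.1
    rw [mq, dif_neg h1, mq, dif_neg hv, map_zero]

theorem DA_mq_ne {a b : K} (hab : b ≠ a) (v : List K) : DA a (mq (b :: v)) = 0 := by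
  by_cases h1 : Adm (b :: v)
  · rw [mq_eq h1, DA_ne hab]
  · rw [mq, dif_neg h1, map_zero]

theorem pre_ne (m : ℕ) (a : K) (t : List K) : pre m (a :: t) ≠ [] := by
  cases m with
  | zero => simp [pre]
  | succ m => simp [pre]

section

variable {x : K} (hx : x ≠ 0)
include hx

theorem DA0_pre (r : ℕ) (t : List K) : DA 0 (mq (pre r (x :: t))) = if r = 0 then 0 else mq (pre (r - 1) (x :: t)) := by
  rcases r with _ | r
  · rw [if_pos rfl, pre_zero, DA_mq_ne hx]
  · rw [if_neg (Nat.succ_ne_zero r), pre_succ, DA_mq_self (Or.inr (pre_ne _ _ _)), Nat.add_sub_cancel]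

theorem DAx_pre (r : ℕ) (t : List K) : DA x (mq (pre r (x :: t))) = if r = 0 then mq t else 0 := by
  rcases r with _ | r
  · rw [if_pos rfl, pre_zero, DA_mq_self (Or.inl hx)]
  · rw [if_neg (Nat.succ_ne_zero r), pre_succ, DA_mq_ne (Ne.symm hx)]

theorem DAn_pre (r : ℕ) (t : List K) : DA (-x) (mq (pre r (x :: t))) = 0 := by
  rcases r with _ | r
  · rw [pre_zero, DA_mq_ne (Ne.symm (neg_ne_self hx))]
  · rw [pre_succ, DA_mq_ne (Ne.symm (neg_ne_zero.2 hx))]

theorem DAn_n (v : List K) : DA (-x) (mq (-x :: v)) = mq v := DA_mq_self (Or.inl (neg_ne_zero.2 hx))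

theorem DAx_n (v : List K) : DA x (mq (-x :: v)) = 0 := DA_mq_ne (neg_ne_self hx) v

theorem DA0_n (v : List K) : DA 0 (mq (-x :: v)) = 0 := DA_mq_ne (neg_ne_zero.2 hx) v

theorem Ekn_n (q r : ℕ) (t : List K) : Ek (-x) q (mq (-x :: pre r (x :: t))) =
    if q ≤ r then mq (pre (r - q) (x :: t)) else 0 := by
  induction q with
  | zero => rw [if_pos (Nat.zero_le _), Ek_zero, DAn_n hx, Nat.sub_zero]
  | succ q ih =>
    rw [Ek_succ, ih, DA0_n hx, map_zero, sub_zero]
    by_cases h1 : q ≤ r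
    · rw [if_pos h1, DA0_pre hx]
      by_cases h2 : q + 1 ≤ r
      · rw [if_pos h2, if_neg (by omega), Nat.sub_sub]
      · rw [if_neg h2, if_pos (by omega)]
    · rw [if_neg h1, if_neg (by omega), map_zero]

theorem Ekn_pre (b r : ℕ) (t : List K) : Ek (-x) b (mq (pre r (x :: t))) = 0 := by
  induction b generalizing r with
  | zero => rw [Ek_zero, DAn_pre hx]
  | succ b ih =>
    rw [Ek_succ, ih, map_zero, DA0_pre hx, zero_sub, neg_eq_zero]
    split_ifs
    · rw [map_zero]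
    · exact ih _

theorem Ekx_n (b : ℕ) (v : List K) : Ek x b (mq (-x :: v)) = 0 := by
  induction b with
  | zero => rw [Ek_zero, DAx_n hx]
  | succ b ih => rw [Ek_succ, ih, map_zero, DA0_n hx, map_zero, sub_zero]

theorem Ekx_pre (b r : ℕ) (u : List K) : Ek x b (mq (pre r (x :: -x :: u))) =
    if r = b then ((-1) ^ b : K) • mq (-x :: u) else 0 := by
  induction b generalizing r with
  | zero => rw [Ek_zero, DAx_pre hx, pow_zero, one_smul]
  | succ b ih =>
    rw [Ek_succ, ih, DA0_pre hx]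
    have h1 : DA 0 (if r = b then ((-1) ^ b : K) • mq (-x :: u) else 0) = 0 := by
      split_ifs
      · rw [Derivation.map_smul, DA0_n hx, smul_zero]
      · rw [map_zero]
    rw [h1, zero_sub]
    rcases r with _ | r
    · rw [if_pos rfl, map_zero, neg_zero, if_neg (Nat.succ_ne_zero b).symm]
    · rw [if_neg (Nat.succ_ne_zero r), Nat.add_sub_cancel, ih]
      by_cases h : r = b
      · rw [if_pos h, if_pos (by rw [h]), pow_succ, mul_neg_one, neg_smul]
      · rw [if_neg h, if_neg (fun h' => h (Nat.succ_injective h')), neg_zero]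

end

/-- the derivation which moves the zeros across `x` -/
noncomputable def Nb (x : K) (b : ℕ) : DD K := ⁅DA x, Ek (-x) b⁆ - ((-1) ^ b : K) • ⁅Ek x b, DA (-x)⁆

theorem Nb_apply (x : K) (b : ℕ) (f : AA K) : Nb x b f =
    (DA x (Ek (-x) b f) - Ek (-x) b (DA x f)) - ((-1) ^ b : K) • (Ek x b (DA (-x) f) - DA (-x) (Ek x b f)) := by
  rw [Nb, Derivation.sub_apply, Derivation.smul_apply, Derivation.commutator_apply, Derivation.commutator_apply]

theorem Lo_DA (x : K) : Lo x 1 0 (DA x) := ⟨Lw_DA_self x, Lw_DA _ _⟩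

theorem Lo_DAn (x : K) : Lo x 0 1 (DA (-x)) := ⟨Lw_DA _ _, Lw_DA_self (-x)⟩

theorem Lo_Nb (x : K) (b : ℕ) : Lo x 1 1 (Nb x b) := by
  have h1 := (Lo_DA x).comm (Lo_Ek_neg x b)
  have h2 := (Lo_Ek x b).comm (Lo_DAn x)
  rw [add_zero, zero_add] at h1 h2
  exact h1.sub (h2.smul _)

section

variable {x : K} (hx : x ≠ 0)
include hx

theorem neg_pow_smul (b : ℕ) (f : AA K) : ((-1) ^ b : K) • (((-1) ^ b : K) • f) = f := by
  rw [smul_smul, ← mul_pow, neg_one_mul, neg_neg, one_pow, one_smul]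

theorem Nb_n (b r : ℕ) (u : List K) : Nb x b (mq (-x :: pre r (x :: -x :: u))) = 0 := by
  rw [Nb_apply, Ekn_n hx, DAx_n hx, map_zero, sub_zero, DAn_n hx, Ekx_n hx, map_zero, sub_zero, Ekx_pre hx]
  by_cases h : b ≤ r
  · rw [if_pos h, DAx_pre hx]
    by_cases h1 : r = b
    · rw [if_pos (by omega), if_pos h1, neg_pow_smul hx, sub_self]
    · rw [if_neg (by omega), if_neg h1, smul_zero, sub_zero]
  · rw [if_neg h, if_neg (by omega), map_zero, smul_zero, sub_zero]

theorem Nb_pre (b k r : ℕ) (t : List K) : Nb x b (mq (pre k (x :: -x :: pre r (x :: t)))) =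
    -(if k = 0 ∧ b ≤ r then mq (pre (r - b) (x :: t)) else 0) + if k = b then mq (pre r (x :: t)) else 0 := by
  rw [Nb_apply, Ekn_pre hx, map_zero, zero_sub, DAx_pre hx, DAn_pre hx, map_zero, zero_sub, Ekx_pre hx, smul_neg,
    sub_neg_eq_add]
  congr 1
  · congr 1
    by_cases hk : k = 0
    · rw [if_pos hk, Ekn_n hx]
      by_cases hb : b ≤ r
      · rw [if_pos hb, if_pos ⟨hk, hb⟩]
      · rw [if_neg hb, if_neg (fun h => hb h.2)]
    · rw [if_neg hk, map_zero, if_neg (fun h => hk h.1)]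
  · by_cases hk : k = b
    · rw [if_pos hk, if_pos hk, Derivation.map_smul, DAn_n hx, neg_pow_smul hx]
    · rw [if_neg hk, if_neg hk, map_zero, smul_zero]

end

/-- the elementary derivation -/
noncomputable def D0 (x : K) : DD K := ⁅DA x, DA (-x)⁆

theorem D0_apply (x : K) (f : AA K) : D0 x f = DA x (DA (-x) f) - DA (-x) (DA x f) :=
  Derivation.commutator_apply f

theorem Lo_D0 (x : K) : Lo x 1 1 (D0 x) := by
  have h1 := (Lo_DA x).comm (Lo_DAn x)
  rw [add_zero, zero_add] at h1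
  exact h1

theorem D0_n {x : K} (hx : x ≠ 0) (r : ℕ) (t : List K) : D0 x (mq (-x :: pre r (x :: t))) = if r = 0 then mq t else 0 := by
  rw [D0_apply, DAn_n hx, DAx_n hx, map_zero, sub_zero, DAx_pre hx]

theorem D0_pre {x : K} (hx : x ≠ 0) (k : ℕ) (v : List K) : D0 x (mq (pre k (x :: -x :: v))) = if k = 0 then -mq v else 0 := by
  rw [D0_apply, DAn_pre hx, map_zero, zero_sub, DAx_pre hx]
  split_ifs
  · rw [DAn_n hx]
  · rw [map_zero, neg_zero]

/-- the alternating words -/
noncomputable def Wd (x : K) : List ℕ → List K → List K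
  | [], t => t
  | p :: ps, t => -x :: pre p (x :: Wd x ps t)

theorem Wd_nil (x : K) (t : List K) : Wd x [] t = t := rfl

theorem Wd_cons (x : K) (p : ℕ) (ps : List ℕ) (t : List K) : Wd x (p :: ps) t = -x :: pre p (x :: Wd x ps t) := rfl

theorem Wd_concat (x : K) (ps : List ℕ) (p : ℕ) (t : List K) : Wd x (ps ++ [p]) t = Wd x ps (-x :: pre p (x :: t)) := by
  induction ps with
  | nil => rfl
  | cons q ps ih => rw [List.cons_append, Wd_cons, ih, Wd_cons]

theorem Wd_starts (x : K) {ps : List ℕ} (u : List K) : ∃ v, Wd x ps (-x :: u) = -x :: v := by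
  cases ps with
  | nil => exact ⟨u, rfl⟩
  | cons p ps => exact ⟨_, rfl⟩

/-- the action of a derivation on the alternating words -/
def Sy (x : K) (d : ℕ) (φ : List ℕ × ℕ → K) (F : DD K) : Prop :=
  ∀ (p : List ℕ) (r : ℕ) (t : List K), p.length = d → F (mq (Wd x p (-x :: pre r (x :: t)))) =
    ∑ q ∈ Finset.range (r + 1), φ (p, q) • mq (pre (r - q) (x :: t))

/-- the possible actions -/
noncomputable def Ac (x : K) (d : ℕ) : Submodule K (List ℕ × ℕ → K) where
  carrier := {φ | ∃ F : DD K, Lo x d (d + 1) F ∧ Sy x d φ F}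
  zero_mem' := by
    refine ⟨0, ⟨fun n f _ => ?_, fun n f _ => ?_⟩, fun p r t _ => ?_⟩
    · rw [Derivation.zero_apply]; exact Submodule.zero_mem _
    · rw [Derivation.zero_apply]; exact Submodule.zero_mem _
    · rw [Derivation.zero_apply]
      simp
  add_mem' := by
    rintro φ ψ ⟨F, hF, hF'⟩ ⟨G, hG, hG'⟩
    refine ⟨F + G, hF.add hG, fun p r t hp => ?_⟩
    rw [Derivation.add_apply, hF' p r t hp, hG' p r t hp, ← Finset.sum_add_distrib]
    exact Finset.sum_congr rfl fun q _ => by rw [Pi.add_apply, add_smul]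
  smul_mem' := by
    rintro c φ ⟨F, hF, hF'⟩
    refine ⟨c • F, hF.smul c, fun p r t hp => ?_⟩
    rw [Derivation.smul_apply, hF' p r t hp, Finset.smul_sum]
    exact Finset.sum_congr rfl fun q _ => by rw [Pi.smul_apply, smul_eq_mul, smul_smul]

open Classical in
/-- the monomials -/
noncomputable def mon (p : List ℕ) (q : ℕ) : List ℕ × ℕ → K := Pi.single (p, q) 1

theorem mon_self (p : List ℕ) (q : ℕ) : (mon p q : List ℕ × ℕ → K) (p, q) = 1 := by
  rw [mon, Pi.single_eq_same]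

theorem mon_ne {p p' : List ℕ} {q q' : ℕ} (h : ¬ (p' = p ∧ q' = q)) : (mon p q : List ℕ × ℕ → K) (p', q') = 0 := by
  rw [mon, Pi.single_eq_of_ne]
  intro h'
  exact h ⟨congrArg Prod.fst h', congrArg Prod.snd h'⟩

open Classical in
theorem sum_mon (P p : List ℕ) (Q r : ℕ) (m : ℕ → AA K) : ∑ q ∈ Finset.range (r + 1), (mon P Q (p, q) : K) • m q =
    if p = P ∧ Q ≤ r then m Q else 0 := by
  by_cases h1 : p = P
  · subst h1
    by_cases h2 : Q ≤ r
    · rw [if_pos ⟨rfl, h2⟩, Finset.sum_eq_single Q]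
      · rw [mon_self, one_smul]
      · intro q _ hq
        rw [mon_ne (fun h => hq h.2), zero_smul]
      · intro h; exact absurd (Finset.mem_range.2 (by omega)) h
    · rw [if_neg (fun h => h2 h.2)]
      refine Finset.sum_eq_zero fun q hq => ?_
      rw [mon_ne (fun h => h2 ?_), zero_smul]
      have := Finset.mem_range.1 hq
      omega
  · rw [if_neg (fun h => h1 h.1)]
    refine Finset.sum_eq_zero fun q hq => ?_
    rw [mon_ne (fun h => h1 h.1), zero_smul]

end Pool.Agent.H18.Mo
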