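import Pool.Agent.H18.Mo.Der

/-!
# The alternating words have dual derivations
-/

set_option autoImplicit false
set_option linter.unusedSectionVars false

open PowerSeries

namespace Pool.Agent.H18.Mo

open Pool.Agent.N902.EW Pool.Agent.H18.Sq

variable {K : Type*} [Field K] [CharZero K]

theorem exists_concat {p : List ℕ} {d : ℕ} (h : p.length = d + 1) : ∃ (p' : List ℕ) (r : ℕ), p = p' ++ [r] ∧ p'.length = d := by
  rcases List.eq_nil_or_concat p with h1 | ⟨q, r, h1⟩
  · rw [h1] at h; simp at h
  · rw [List.concat_eq_append] at h1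
    refine ⟨q, r, h1, ?_⟩
    rw [h1] at h
    simpa using h

theorem cc {p P : List ℕ} {r c : ℕ} : p ++ [r] = P ++ [c] ↔ p = P ∧ r = c := by
  constructor
  · intro h
    have h4 := List.append_inj_right' h (by simp)
    have h5 := List.append_inj_left' h (by simp)
    simp only [List.cons.injEq, and_true] at h4
    exact ⟨h5, h4⟩
  · rintro ⟨rfl, rfl⟩; rfl

theorem mon_base {x : K} (hx : x ≠ 0) (q : ℕ) : mon [] q ∈ Ac x 0 := by
  refine ⟨Ek (-x) q, Lo_Ek_neg x q, fun p r t hp => ?_⟩
  rw [List.length_eq_zero_iff.1 hp, Wd_nil, Ekn_n hx, sum_mon]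
  by_cases h : q ≤ r
  · rw [if_pos h, if_pos ⟨rfl, h⟩]
  · rw [if_neg h, if_neg (fun h' => h h'.2)]

theorem Sy_mon {x : K} {d : ℕ} {P : List ℕ} {q : ℕ} {F : DD K} (hF : Sy x d (mon P q) F) {p : List ℕ} (hp : p.length = d)
    (r : ℕ) (t : List K) : F (mq (Wd x p (-x :: pre r (x :: t)))) =
      open Classical in if p = P ∧ q ≤ r then mq (pre (r - q) (x :: t)) else 0 := by
  rw [hF p r t hp, sum_mon]

theorem step1 {x : K} (hx : x ≠ 0) {d : ℕ} {P : List ℕ} {q : ℕ} (h : mon P q ∈ Ac x d) (b : ℕ) :
    mon (P ++ [q + b]) 0 - mon (P ++ [q]) b ∈ Ac x (d + 1) := by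
  classical
  obtain ⟨F, hF, hF'⟩ := h
  refine ⟨⁅Nb x b, F⁆, ?_, fun p r t hp => ?_⟩
  · have h1 := (Lo_Nb x b).comm hF
    rw [add_comm 1 d, add_comm 1 (d + 1)] at h1
    exact h1
  · obtain ⟨p', r0, rfl, hp'⟩ := exists_concat hp
    have hz : Nb x b (mq (Wd x (p' ++ [r0]) (-x :: pre r (x :: t)))) = 0 := by
      rcases p' with _ | ⟨a, ps⟩
      · rw [List.nil_append, Wd_cons, Wd_nil, Nb_n hx]
      · rw [List.cons_append, Wd_cons]
        obtain ⟨v, hv⟩ := Wd_starts x (ps := ps ++ [r0]) (pre r (x :: t))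
        rw [hv, Nb_n hx]
    rw [Derivation.commutator_apply, hz, map_zero, sub_zero, Wd_concat, Sy_mon hF' hp']
    simp only [Pi.sub_apply, sub_smul, Finset.sum_sub_distrib, sum_mon, cc, Nat.zero_le, and_true, Nat.sub_zero]
    by_cases h1 : p' = P
    · simp only [h1, true_and]
      by_cases h2 : q ≤ r0
      · rw [if_pos h2, Nb_pre hx]
        split_ifs <;> first | (exfalso; omega) | abel
      · rw [if_neg h2, map_zero]
        split_ifs <;> first | (exfalso; omega) | abel
    · simp only [h1, false_and, if_false, map_zero, sub_zero]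

theorem step2 {x : K} (hx : x ≠ 0) {d : ℕ} {P : List ℕ} {q : ℕ} (h : mon P q ∈ Ac x d) :
    mon (0 :: P) q + mon (P ++ [q]) 0 ∈ Ac x (d + 1) := by
  classical
  obtain ⟨F, hF, hF'⟩ := h
  refine ⟨⁅F, D0 x⁆, hF.comm (Lo_D0 x), fun p r t hp => ?_⟩
  rw [Derivation.commutator_apply]
  simp only [Pi.add_apply, add_smul, Finset.sum_add_distrib, sum_mon]
  rw [sub_eq_add_neg]
  congr 1
  · rcases p with _ | ⟨a, ps⟩
    · simp at hp
    · have hps : ps.length = d := by simpa using hp
      rw [Wd_cons, D0_n hx]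
      by_cases ha : a = 0
      · subst ha
        rw [if_pos rfl, Sy_mon hF' hps]
        by_cases h1 : ps = P ∧ q ≤ r
        · rw [if_pos h1, if_pos ⟨by rw [h1.1], h1.2⟩]
        · rw [if_neg h1, if_neg (fun h => h1 ⟨(List.cons.inj h.1).2, h.2⟩)]
      · rw [if_neg ha, map_zero, if_neg (fun h => ha (List.cons.inj h.1).1)]
  · obtain ⟨p', r0, rfl, hp'⟩ := exists_concat hp
    rw [Wd_concat, Sy_mon hF' hp']
    by_cases h1 : p' = P ∧ q ≤ r0
    · rw [if_pos h1, D0_pre hx]
      by_cases h2 : r0 - q = 0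
      · rw [if_pos h2, if_pos ⟨by rw [h1.1, show r0 = q by omega], Nat.zero_le _⟩, neg_neg, Nat.sub_zero]
      · rw [if_neg h2, if_neg, neg_zero]
        rintro ⟨h3, -⟩
        have h4 := List.append_inj_right' h3 (by simp)
        simp only [List.cons.injEq, and_true] at h4
        omega
    · rw [if_neg h1, map_zero, neg_zero, if_neg]
      rintro ⟨h3, -⟩
      have h4 := List.append_inj_right' h3 (by simp)
      have h5 := List.append_inj_left' h3 (by simp)
      simp only [List.cons.injEq, and_true] at h4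
      exact h1 ⟨h5, by omega⟩

/-- all monomials are possible -/
theorem mon_mem {x : K} (hx : x ≠ 0) (d : ℕ) : ∀ (P : List ℕ) (q : ℕ), P.length = d → mon P q ∈ Ac x d := by
  induction d with
  | zero =>
    intro P q hP
    rw [List.length_eq_zero_iff.1 hP]
    exact mon_base hx q
  | succ d ih =>
    have h1 : ∀ (P : List ℕ) (q b : ℕ), P.length = d → mon (P ++ [q + b]) 0 - mon (P ++ [q]) b ∈ Ac x (d + 1) :=
      fun P q b hP => step1 hx (ih P q hP) b
    have h2 : ∀ (P : List ℕ) (q : ℕ), P.length = d → mon (0 :: P) q + mon (P ++ [q]) 0 ∈ Ac x (d + 1) :=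
      fun P q hP => step2 hx (ih P q hP)
    have key : ∀ (n j : ℕ) (l : List ℕ), l.length = n + 1 → j + n = d →
        (mon (List.replicate j 0 ++ l) 0 : List ℕ × ℕ → K) ∈ Ac x (d + 1) := by
      intro n
      induction n with
      | zero =>
        intro j l hl hj
        obtain ⟨q, rfl⟩ := List.length_eq_one_iff.1 hl
        have hj' : j = d := by omega
        subst hj'
        have a1 := h1 (List.replicate j 0) 0 q (by simp)
        have a2 := h2 (List.replicate j 0) q (by simp)
        have e : (0 :: List.replicate j 0 : List ℕ) = List.replicate j 0 ++ [0] := by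
          rw [← List.replicate_succ, List.replicate_succ']
        rw [zero_add] at a1
        rw [e] at a2
        have a3 := Submodule.add_mem _ a1 a2
        have a4 : (mon (List.replicate j 0 ++ [q]) 0 - mon (List.replicate j 0 ++ [0]) q +
            (mon (List.replicate j 0 ++ [0]) q + mon (List.replicate j 0 ++ [q]) 0) : List ℕ × ℕ → K) =
            (2 : K) • mon (List.replicate j 0 ++ [q]) 0 := by
          rw [two_smul]; abel
        rw [a4] at a3
        have a5 := Submodule.smul_mem _ (2 : K)⁻¹ a3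
        rwa [smul_smul, inv_mul_cancel₀ two_ne_zero, one_smul] at a5
      | succ n ihn =>
        intro j l hl hj
        obtain ⟨l', q, rfl, hl'⟩ := exists_concat hl
        obtain ⟨l1, r, rfl, hl1⟩ := exists_concat hl'
        have a1 := h1 (0 :: (List.replicate j 0 ++ l1)) r q (by simp; omega)
        have a2 := h2 (List.replicate j 0 ++ (l1 ++ [r])) q (by simp; omega)
        have a3 := ihn (j + 1) (l1 ++ [r + q]) (by simp; omega) (by omega)
        rw [List.replicate_succ, List.cons_append, ← List.append_assoc] at a3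
        have a4 := Submodule.add_mem _ (Submodule.sub_mem _ a2 a3) a1
        have e1 : (0 :: (List.replicate j 0 ++ (l1 ++ [r])) : List ℕ) = 0 :: (List.replicate j 0 ++ l1) ++ [r] := by simp
        have e2 : List.replicate j 0 ++ (l1 ++ [r]) ++ [q] = List.replicate j 0 ++ (l1 ++ [r] ++ [q]) := by simp
        have e3 : (0 :: (List.replicate j 0 ++ l1) ++ [r + q] : List ℕ) = 0 :: (List.replicate j 0 ++ l1 ++ [r + q]) := by simp
        rw [e1, e2, e3] at a4
        convert a4 using 1
        abel
    have h3 : ∀ P : List ℕ, P.length = d + 1 → (mon P 0 : List ℕ × ℕ → K) ∈ Ac x (d + 1) := by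
      intro P hP
      have := key d 0 P hP (by omega)
      simpa using this
    intro P q hP
    obtain ⟨Q, r, rfl, hQ⟩ := exists_concat hP
    have a1 := h1 Q r q hQ
    have a2 := h3 (Q ++ [r + q]) (by simp [hQ])
    have a3 := Submodule.sub_mem _ a2 a1
    rwa [sub_sub_cancel] at a3

open Classical in
/-- the dual derivations -/
theorem exists_dual {x : K} (hx : x ≠ 0) {s : List ℕ} (hs : s ≠ []) : ∃ D : DD K, Lo x s.length s.length D ∧
    ∀ (s' : List ℕ) (t : List K), s'.length = s.length → D (mq (Wd x s' t)) = if s' = s then mq t else 0 := by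
  obtain ⟨d, hd⟩ : ∃ d, s.length = d + 1 := ⟨s.length - 1, by
    have := List.length_pos_iff.2 hs
    omega⟩
  obtain ⟨P, q, rfl, hP⟩ := exists_concat hd
  obtain ⟨F, hF, hF'⟩ := mon_mem hx d P q hP
  refine ⟨⁅DA x, F⁆, ?_, fun s' t hs' => ?_⟩
  · have h1 := (Lo_DA x).comm hF
    rw [zero_add, add_comm 1 d] at h1
    rwa [hd]
  · obtain ⟨p', r, rfl, hp'⟩ := exists_concat (hs'.trans hd)
    have hz : DA x (mq (Wd x (p' ++ [r]) t)) = 0 := by
      rcases p' with _ | ⟨a, ps⟩
      · rw [List.nil_append, Wd_cons, DAx_n hx]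
      · rw [List.cons_append, Wd_cons, DAx_n hx]
    rw [Derivation.commutator_apply, hz, map_zero, sub_zero, Wd_concat, Sy_mon hF' hp']
    by_cases h1 : p' = P ∧ q ≤ r
    · rw [if_pos h1, DAx_pre hx]
      by_cases h2 : r - q = 0
      · rw [if_pos h2, if_pos (by rw [h1.1, show r = q by omega])]
      · rw [if_neg h2, if_neg]
        intro h3
        have h4 := List.append_inj_right' h3 (by simp)
        simp only [List.cons.injEq, and_true] at h4
        omega
    · rw [if_neg h1, map_zero, if_neg]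
      intro h3
      have h4 := List.append_inj_right' h3 (by simp)
      have h5 := List.append_inj_left' h3 (by simp)
      simp only [List.cons.injEq, and_true] at h4
      exact h1 ⟨h5, by omega⟩

end Pool.Agent.H18.Mo
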