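import Pool.Agent.H18.Mo.Prod
import Pool.Agent.H18.Bes.Ser

/-!
# The means of the multiple harmonic sums as integrals
-/

set_option autoImplicit false
set_option linter.unusedSectionVars false

open Set MeasureTheory

namespace Pool.Agent.H18.Mo

open Pool.Agent.N902.EW Pool.Agent.H18.Bes

open Pool.Agent.H18.Pr (Em Bd ai_tri)

/-- the coefficients -/
noncomputable def ca (s : List ℕ) (n : ℕ) : ℂ := mh s n / (n.factorial : ℂ)

theorem ent_ca {s : List ℕ} (hs : ∀ k ∈ s, 2 ≤ k) : Ent (ca s) := by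
  intro r hr
  obtain ⟨C, hC⟩ := bd_mh hs
  have h1 : Summable fun m : ℕ => C * (r ^ m / (m.factorial : ℝ)) := (Real.summable_pow_div_factorial r).mul_left C
  refine Summable.of_nonneg_of_le (fun m => by positivity) (fun m => ?_) h1
  rw [ca, norm_div, Complex.norm_natCast]
  have h2 : (0 : ℝ) < (m.factorial : ℝ) := by exact_mod_cast m.factorial_pos
  calc ‖mh s m‖ / (m.factorial : ℝ) * r ^ m = ‖mh s m‖ * (r ^ m / (m.factorial : ℝ)) := by ring
    _ ≤ C * (r ^ m / (m.factorial : ℝ)) := mul_le_mul_of_nonneg_right (hC m) (by positivity)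

theorem Em_sr (s : List ℕ) (z : ℂ) : Em z (mh s) = Complex.exp (-z) * sr (ca s) z := by
  rw [Em, sr]
  congr 1
  exact tsum_congr fun n => by rw [ca]; ring

/-- the function in the integral -/
noncomputable def gf (k : ℕ) (s : List ℕ) (z : ℂ) : ℂ :=
  ∑' n : ℕ, mh s n * z ^ (n + 1) / (((n + 1).factorial : ℂ) * ((n : ℂ) + 1) ^ (k - 1))

theorem gf_eq {k : ℕ} {s : List ℕ} (hs : ∀ l ∈ k :: s, 2 ≤ l) (z : ℂ) :
    sr (fun n => (n : ℂ) * ca (k :: s) n) z - z * sr (ca (k :: s)) z = gf k s z := by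
  have hk : 2 ≤ k := hs k List.mem_cons_self
  have e := ent_ca hs
  have h1 := (e.nmul).summable z
  have h2 := e.summable z
  rw [sr, h1.tsum_eq_zero_add, sr, ← tsum_mul_left]
  have h3 : Summable fun n : ℕ => z * (ca (k :: s) n * z ^ n) := h2.mul_left z
  have h4 : Summable fun n : ℕ => ((n + 1 : ℕ) : ℂ) * ca (k :: s) (n + 1) * z ^ (n + 1) :=
    (summable_nat_add_iff (f := fun n : ℕ => (n : ℂ) * ca (k :: s) n * z ^ n) 1).2 h1
  rw [Nat.cast_zero, zero_mul, zero_mul, zero_add, ← h4.tsum_sub h3, gf]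
  refine tsum_congr fun n => ?_
  rw [ca, ca, mh_succ]
  obtain ⟨m, rfl⟩ : ∃ m, k = m + 1 := ⟨k - 1, by omega⟩
  rw [Nat.add_sub_cancel]
  have h5 : ((n + 1).factorial : ℂ) = (n + 1) * n.factorial := by
    rw [Nat.factorial_succ]; push_cast; ring
  have h6 : (n.factorial : ℂ) ≠ 0 := by exact_mod_cast n.factorial_ne_zero
  have h7 : ((n : ℂ) + 1) ≠ 0 := by exact_mod_cast Nat.succ_ne_zero n
  rw [h5, pow_succ z n, pow_succ ((n : ℂ) + 1) m]
  push_cast
  field_simp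
  ring

theorem deriv_Em {k : ℕ} {s : List ℕ} (hs : ∀ l ∈ k :: s, 2 ≤ l) (x : ℂ) (t : ℝ) :
    HasDerivAt (fun t : ℝ => Em (x * Complex.exp t) (mh (k :: s)))
      (Complex.exp (-(x * Complex.exp t)) * gf k s (x * Complex.exp t)) t := by
  have e := ent_ca hs
  have h0 : HasDerivAt (fun z : ℂ => Complex.exp (-z) * sr (ca (k :: s)) z)
      (-Complex.exp (-(x * Complex.exp t)) * sr (ca (k :: s)) (x * Complex.exp t) +
        Complex.exp (-(x * Complex.exp t)) * sr (Bes.dc (ca (k :: s))) (x * Complex.exp t)) (x * Complex.exp t) := by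
    have h1 : HasDerivAt (fun z : ℂ => Complex.exp (-z)) (-Complex.exp (-(x * Complex.exp t))) (x * Complex.exp t) := by
      have := (hasDerivAt_neg (x * Complex.exp (t : ℂ))).cexp
      refine HasDerivAt.congr_deriv this ?_
      ring
    exact h1.mul (sr_hasDerivAt e _)
  have h2 : HasDerivAt (fun w : ℂ => x * Complex.exp w) (x * Complex.exp (t : ℂ)) (t : ℂ) :=
    (Complex.hasDerivAt_exp (t : ℂ)).const_mul x
  have h3 := (h0.comp (t : ℂ) h2).comp_ofReal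
  have e1 : (fun t : ℝ => Em (x * Complex.exp t) (mh (k :: s))) =
      fun t : ℝ => ((fun z : ℂ => Complex.exp (-z) * sr (ca (k :: s)) z) ∘ fun w : ℂ => x * Complex.exp w) (t : ℂ) := by
    funext t
    rw [Em_sr]
    rfl
  rw [e1]
  refine HasDerivAt.congr_deriv h3 ?_
  rw [← gf_eq hs, ← mul_sr_dc e]
  ring

theorem continuous_gf {k : ℕ} {s : List ℕ} (hs : ∀ l ∈ k :: s, 2 ≤ l) : Continuous (gf k s) := by
  have e := ent_ca hs
  have h1 : ∀ {a : ℕ → ℂ}, Ent a → Continuous (sr a) := fun ha =>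
    continuous_iff_continuousAt.2 fun z => (sr_hasDerivAt ha z).continuousAt
  have h2 : gf k s = fun z => sr (fun n => (n : ℂ) * ca (k :: s) n) z - z * sr (ca (k :: s)) z := by
    funext z
    rw [gf_eq hs]
  rw [h2]
  exact (h1 e.nmul).sub (continuous_id.mul (h1 e))

/-- the integral -/
theorem integral_gf {k : ℕ} {s : List ℕ} (hs : ∀ l ∈ k :: s, 2 ≤ l) (x : ℂ) (c : ℝ) :
    (∫ t in (0 : ℝ)..c, Complex.exp (-(x * Complex.exp t)) * gf k s (x * Complex.exp t)) =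
      Em (x * Complex.exp c) (mh (k :: s)) - Em x (mh (k :: s)) := by
  have h1 : Continuous fun t : ℝ => x * Complex.exp (t : ℂ) :=
    continuous_const.mul (Complex.continuous_exp.comp Complex.continuous_ofReal)
  have h2 : Continuous fun t : ℝ => Complex.exp (-(x * Complex.exp t)) * gf k s (x * Complex.exp t) :=
    (Complex.continuous_exp.comp h1.neg).mul ((continuous_gf hs).comp h1)
  rw [intervalIntegral.integral_eq_sub_of_hasDerivAt (fun t _ => deriv_Em hs x t) (h2.intervalIntegrable _ _)]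
  simp

/-! ### Algebraic independence -/

/-- the indices -/
abbrev IE (X V : Set ℝ) : Type := {q : (ℝ × ℝ) × List ℕ // q.1.1 ∈ X ∧ (q.1.2 ∈ V ∨ q.1.2 = 0) ∧ q.2 ≠ [] ∧ ∀ k ∈ q.2, 2 ≤ k}

open Classical in
/-- the numbers -/
noncomputable def nE {X V : Set ℝ} (q : IE X V) : ℂ :=
  if q.1.1.2 = 0 then Em q.1.1.1 (mh q.1.2) else Em (q.1.1.1 * Complex.exp q.1.1.2) (mh q.1.2) - Em q.1.1.1 (mh q.1.2)

theorem ai_nE {X V : Set ℝ} (hX : ∀ x ∈ X, 0 < x ∧ IsAlgebraic ℚ x) (hV : ∀ c ∈ V, IsAlgebraic ℚ (Real.exp c))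
    (hsep : ∀ x ∈ X, ∀ y ∈ X, ∀ c d : ℝ, (c ∈ V ∨ c = 0) → (d ∈ V ∨ d = 0) → x * Real.exp c = y * Real.exp d → x = y ∧ c = d) :
    AlgebraicIndependent KK (nE (X := X) (V := V)) := by
  classical
  let P : Set ℂ := {z | ∃ x ∈ X, ∃ c : ℝ, (c ∈ V ∨ c = 0) ∧ z = ((x * Real.exp c : ℝ) : ℂ)}
  have halg : ∀ x : ℝ, IsAlgebraic ℚ x → IsAlgebraic ℚ (x : ℂ) := fun x hx => hx.algebraMap
  have hV' : ∀ c : ℝ, (c ∈ V ∨ c = 0) → IsAlgebraic ℚ (Real.exp c) := by
    rintro c (hc | rfl)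
    · exact hV c hc
    · rw [Real.exp_zero]; exact isAlgebraic_one
  have hP : ∀ z ∈ P, IsAlgebraic ℚ z ∧ ∀ w ∈ P, z + w ≠ 0 := by
    rintro z ⟨x, hx, c, hc, rfl⟩
    refine ⟨halg _ ((hX x hx).2.mul (hV' c hc)), ?_⟩
    rintro w ⟨y, hy, d, hd, rfl⟩ h
    have h1 : x * Real.exp c + y * Real.exp d = 0 := by exact_mod_cast h
    have h2 : 0 < x * Real.exp c := mul_pos (hX x hx).1 (Real.exp_pos c)
    have h3 : 0 < y * Real.exp d := mul_pos (hX y hy).1 (Real.exp_pos d)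
    linarith
  have h0 := ai_mh P hP
  let g : IE X V → IL P := fun q => ⟨(((q.1.1.1 * Real.exp q.1.1.2 : ℝ) : ℂ), q.1.2),
    ⟨q.1.1.1, q.2.1, q.1.1.2, q.2.2.1, rfl⟩, q.2.2.2.1, q.2.2.2.2⟩
  have hg : Function.Injective g := by
    intro p q hpq
    have h1 : ((p.1.1.1 * Real.exp p.1.1.2 : ℝ) : ℂ) = ((q.1.1.1 * Real.exp q.1.1.2 : ℝ) : ℂ) := congrArg (fun z => z.1.1) hpq
    have h2 : p.1.2 = q.1.2 := congrArg (fun z => z.1.2) hpq
    have h3 : p.1.1.1 * Real.exp p.1.1.2 = q.1.1.1 * Real.exp q.1.1.2 := by exact_mod_cast h1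
    obtain ⟨h4, h5⟩ := hsep _ p.2.1 _ q.2.1 _ _ p.2.2.1 q.2.2.1 h3
    exact Subtype.ext (Prod.ext (Prod.ext h4 h5) h2)
  have h1 := h0.comp g hg
  refine ai_tri h1 ?_
  rintro ⟨⟨⟨x, c⟩, s⟩, hx, hc, hs, hs2⟩
  let i : IE X V := ⟨((x, c), s), hx, hc, hs, hs2⟩
  let i0 : IE X V := ⟨((x, 0), s), hx, Or.inr rfl, hs, hs2⟩
  refine ⟨{i, i0}, by simp [i], ?_⟩
  set D : Finset (IE X V) := {i, i0} with hD
  have m0 : nE i0 ∈ clf KK (nE '' (D : Set (IE X V))) := subset_clf _ ⟨i0, by simp [D], rfl⟩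
  have m1 : nE i ∈ clf KK (nE '' (D : Set (IE X V))) := subset_clf _ ⟨i, by simp [D], rfl⟩
  have v0 : nE i0 = Em x (mh s) := if_pos rfl
  have g0 : Em ((x * Real.exp (0 : ℝ) : ℝ) : ℂ) (mh s) = Em x (mh s) := by rw [Real.exp_zero, mul_one]
  intro j hj
  have hj' : j = i ∨ j = i0 := by simpa [D] using hj
  have key0 : Em ((x * Real.exp (0 : ℝ) : ℝ) : ℂ) (mh s) ∈ clf KK (nE '' (D : Set (IE X V))) := by
    rw [g0, ← v0]; exact m0
  rcases hj' with rfl | rfl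
  · show Em ((x * Real.exp c : ℝ) : ℂ) (mh s) ∈ _
    by_cases hc0 : c = 0
    · subst hc0
      exact key0
    · have v1 : nE i = Em (x * Complex.exp c) (mh s) - Em x (mh s) := if_neg hc0
      have e : ((x * Real.exp c : ℝ) : ℂ) = x * Complex.exp c := by push_cast; rfl
      have h2 : Em ((x * Real.exp c : ℝ) : ℂ) (mh s) = nE i + nE i0 := by
        rw [v1, v0, e]; ring
      rw [h2]
      exact (clf KK _).add_mem m1 m0
  · exact key0

end Pool.Agent.H18.Mo
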