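import Pool.Agent.H18.Mo.Val

/-!
# The derivations on the elements
-/

set_option autoImplicit false
set_option linter.unusedSectionVars false

open PowerSeries

namespace Pool.Agent.H18.Mo

open Pool.Agent.N902.EW Pool.Agent.H18.Sq

variable {K : Type*} [Field K] [CharZero K]

theorem ct_pre {y : K} (hy : y ≠ 0) (m : ℕ) (v : List K) : ct y (pre m v) = ct y v := by
  induction m with
  | zero => rfl
  | succ m ih => rw [pre_succ, ct_cons_ne (Ne.symm hy), ih]

theorem ct_zero {y : K} {w : List K} (h : y ∉ w) : ct y w = 0 := by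
  induction w with
  | nil => rfl
  | cons a v ih =>
    rw [ct_cons_ne (fun h' => h (by rw [h']; exact List.mem_cons_self)), ih fun h' => h (List.mem_cons_of_mem _ h')]

/-- the counts in the inner words -/
theorem Rl_ct {x : K} (hx : x ≠ 0) (s : List ℕ) : ∀ (m : ℕ), ∃ rest : List (List K),
    Rl x s m = pre m (x :: Wd x s []) :: rest ∧ ct x (pre m (x :: Wd x s [])) ≤ s.length + 1 ∧
      ct (-x) (pre m (x :: Wd x s [])) ≤ s.length ∧
      ∀ w ∈ rest, ct x w ≤ s.length + 1 ∧ ct (-x) w ≤ s.length ∧ (ct x w < s.length + 1 ∨ ct (-x) w < s.length) := by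
  have hnx : -x ≠ 0 := neg_ne_zero.2 hx
  have hnxx : -x ≠ x := neg_ne_self hx
  have c1 : ∀ v : List K, ct x (x :: v) = ct x v + 1 := fun v => ct_cons_self x v
  have c2 : ∀ v : List K, ct (-x) (x :: v) = ct (-x) v := fun v => ct_cons_ne hnxx.symm v
  have c3 : ∀ v : List K, ct x (-x :: v) = ct x v := fun v => ct_cons_ne hnxx v
  have c4 : ∀ v : List K, ct (-x) (-x :: v) = ct (-x) v + 1 := fun v => ct_cons_self (-x) v
  have c5 : ∀ v : List K, ct x (0 :: v) = ct x v := fun v => ct_cons_ne hx.symm v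
  have c6 : ∀ v : List K, ct (-x) (0 :: v) = ct (-x) v := fun v => ct_cons_ne hnx.symm v
  induction s with
  | nil =>
    intro m
    refine ⟨[], rfl, ?_, ?_, fun w hw => absurd hw (by simp)⟩
    · rw [ct_pre hx, c1, Wd_nil]; exact le_refl _
    · rw [ct_pre hnx, c2, Wd_nil]; exact le_refl _
  | cons k s ih =>
    intro m
    obtain ⟨rest, h1, h2, h3, h4⟩ := ih k
    refine ⟨[pre m (x :: 0 :: pre k (x :: Wd x s [])), pre m (0 :: -x :: pre k (x :: Wd x s []))] ++
      rest.flatMap (w3 x m), ?_, ?_, ?_, ?_⟩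
    · rw [Rl, h1, List.flatMap_cons, Wd_cons]
      rfl
    · rw [ct_pre hx, c1, Wd_cons, c3, List.length_cons]; omega
    · rw [ct_pre hnx, c2, Wd_cons, c4, List.length_cons]; omega
    · intro w hw
      rw [List.length_cons]
      rw [List.mem_append, List.mem_cons, List.mem_singleton, List.mem_flatMap] at hw
      rcases hw with (rfl | rfl) | ⟨v, hv, hw⟩
      · rw [ct_pre hx, ct_pre hnx, c1, c2, c5, c6]; omega
      · rw [ct_pre hx, ct_pre hnx, c5, c6, c3, c4]; omega
      · have h5 := h4 v hv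
        rw [w3, List.mem_cons, List.mem_cons, List.mem_singleton] at hw
        rcases hw with rfl | rfl | rfl
        · rw [ct_pre hx, ct_pre hnx, c1, c2, c3, c4]; omega
        · rw [ct_pre hx, ct_pre hnx, c1, c2, c5, c6]; omega
        · rw [ct_pre hx, ct_pre hnx, c5, c6, c3, c4]; omega

/-- the counts in the words -/
theorem Fl_ct {x : K} (hx : x ≠ 0) (s : List ℕ) (hs' : s ≠ []) : ∃ rest : List (List K), Fl x s = Wd x s [] :: rest ∧
    ∀ w ∈ rest, ct x w < s.length ∨ ct (-x) w < s.length := by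
  have hnx : -x ≠ 0 := neg_ne_zero.2 hx
  have hnxx : -x ≠ x := neg_ne_self hx
  rcases s with _ | ⟨m, s⟩
  · exact absurd rfl hs'
  · obtain ⟨rest, h1, h2, h3, h4⟩ := Rl_ct hx s m
    refine ⟨[0 :: pre m (x :: Wd x s [])] ++ rest.flatMap (fun w => [-x :: w, 0 :: w]), ?_, ?_⟩
    · rw [Fl, h1, List.flatMap_cons, Wd_cons]
      rfl
    · intro w hw
      rw [List.length_cons]
      rw [List.mem_append, List.mem_singleton, List.mem_flatMap] at hw
      rcases hw with rfl | ⟨v, hv, hw⟩
      · rw [ct_cons_ne hnx.symm]; omega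
      · have h5 := h4 v hv
        rw [List.mem_cons, List.mem_singleton] at hw
        rcases hw with rfl | rfl
        · rw [ct_cons_ne hnxx, ct_cons_self]; omega
        · rw [ct_cons_ne hx.symm, ct_cons_ne hnx.symm]; omega

theorem Fl_ct_le {x : K} (hx : x ≠ 0) (s : List ℕ) : ∀ w ∈ Fl x s, ct x w ≤ s.length := by
  have hnxx : -x ≠ x := neg_ne_self hx
  rcases s with _ | ⟨m, s⟩
  · intro w hw
    rw [Fl, List.mem_singleton] at hw
    rw [hw]; exact le_refl _
  · obtain ⟨rest, h1, h2, h3, h4⟩ := Rl_ct hx s m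
    intro w hw
    rw [Fl, List.mem_flatMap] at hw
    obtain ⟨v, hv, hw⟩ := hw
    have h5 : ct x v ≤ s.length + 1 := by
      rw [h1, List.mem_cons] at hv
      rcases hv with rfl | hv
      · exact h2
      · exact (h4 v hv).1
    rw [List.mem_cons, List.mem_singleton] at hw
    rw [List.length_cons]
    rcases hw with rfl | rfl
    · rw [ct_cons_ne hnxx]; exact h5
    · rw [ct_cons_ne hx.symm]; exact h5

theorem Rl_letters (x : K) (s : List ℕ) : ∀ (m : ℕ), ∀ w ∈ Rl x s m, ∀ a ∈ w, a = 0 ∨ a = x ∨ a = -x := by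
  induction s with
  | nil =>
    intro m w hw a ha
    rw [Rl, List.mem_singleton] at hw
    rw [hw] at ha
    rcases mem_pre ha with h | h
    · exact Or.inl h
    · rw [List.mem_singleton] at h; exact Or.inr (Or.inl h)
  | cons k s ih =>
    intro m w hw a ha
    rw [Rl, List.mem_flatMap] at hw
    obtain ⟨v, hv, hw⟩ := hw
    have h1 := ih k v hv a
    rw [w3, List.mem_cons, List.mem_cons, List.mem_singleton] at hw
    rcases hw with rfl | rfl | rfl
    all_goals
      rcases mem_pre ha with h | h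
      · exact Or.inl h
      · rw [List.mem_cons, List.mem_cons] at h
        rcases h with h | h | h
        · simp [h]
        · simp [h]
        · exact h1 h

theorem Fl_letters (x : K) (s : List ℕ) : ∀ w ∈ Fl x s, ∀ a ∈ w, a = 0 ∨ a = x ∨ a = -x := by
  rcases s with _ | ⟨m, s⟩
  · intro w hw a ha
    rw [Fl, List.mem_singleton] at hw
    rw [hw] at ha
    exact absurd ha (by simp)
  · intro w hw a ha
    rw [Fl, List.mem_flatMap] at hw
    obtain ⟨v, hv, hw⟩ := hw
    have h1 := Rl_letters x s m v hv a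
    rw [List.mem_cons, List.mem_singleton] at hw
    rcases hw with rfl | rfl
    all_goals
      rw [List.mem_cons] at ha
      rcases ha with h | h
      · simp [h]
      · exact h1 h

theorem D_list_zero (D : DD K) (l : List (List K)) (h : ∀ w ∈ l, D (mq w) = 0) : D ((l.map mq).sum) = 0 := by
  induction l with
  | nil => exact map_zero D
  | cons a l ih =>
    rw [List.map_cons, List.sum_cons, map_add, h a List.mem_cons_self, zero_add,
      ih fun w hw => h w (List.mem_cons_of_mem _ hw)]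

theorem Lo.kill {x : K} {d : ℕ} {D : DD K} (h : Lo x d d D) {w : List K} (hw : ct x w < d ∨ ct (-x) w < d) : D (mq w) = 0 := by
  rcases hw with hw | hw
  · exact h.1.kill (mq_mem_Cn hw)
  · exact h.2.kill (mq_mem_Cn hw)

/-- the same depth -/
theorem D_Fs {x : K} (hx : x ≠ 0) {s : List ℕ} (hs' : s ≠ []) {D : DD K} (h : Lo x s.length s.length D) :
    D (Fs x s) = D (mq (Wd x s [])) := by
  obtain ⟨rest, h1, h2⟩ := Fl_ct hx s hs'
  rw [Fs, h1, List.map_cons, List.sum_cons, map_add, D_list_zero D rest fun w hw => h.kill (h2 w hw), add_zero]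

/-- smaller depth -/
theorem D_Fs_lt {x : K} (hx : x ≠ 0) {s : List ℕ} {d : ℕ} (hd : s.length < d) {D : DD K} (h : Lo x d d D) :
    D (Fs x s) = 0 :=
  D_list_zero D _ fun w hw => h.kill (Or.inl (lt_of_le_of_lt (Fl_ct_le hx s w hw) hd))

/-- another point -/
theorem D_Fs_ne {x y : K} (hx : x ≠ 0) (hxy : x ≠ y) (hxy' : x + y ≠ 0) (s : List ℕ) {d : ℕ} (hd : 0 < d) {D : DD K}
    (h : Lo x d d D) : D (Fs y s) = 0 := by
  refine D_list_zero D _ fun w hw => h.kill (Or.inl ?_)
  rw [ct_zero]
  · exact hd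
  · intro hxw
    rcases Fl_letters y s w hw x hxw with h1 | h1 | h1
    · exact hx h1
    · exact hxy h1
    · exact hxy' (by rw [h1]; ring)

/-- words without opposite letters -/
theorem D_noOpp {x : K} (hx : x ≠ 0) {d : ℕ} (hd : 0 < d) {D : DD K} (h : Lo x d d D) (l : K) {w : List K} (hw : Adm w)
    (hno : NoOpp w) : D (mk l w hw) = 0 := by
  by_cases hxw : x ∈ w
  · exact h.2.kill (mk_mem_Cn l hw (by rw [ct_zero (hno x hxw hx)]; exact hd))
  · exact h.1.kill (mk_mem_Cn l hw (by rw [ct_zero hxw]; exact hd))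

end Pool.Agent.H18.Mo
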