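import Pool.Agent.H18.Mo.Prod

/-!
# All moments of the harmonic sums and of the tails
-/

set_option autoImplicit false
set_option linter.unusedSectionVars false

open Set

namespace Pool.Agent.H18.Mo

open Pool.Agent.N902.EW Pool.Agent.H18.Wd

open Pool.Agent.H18.Pr (Em Bd hm tl Em_add Em_mul Em_const Em_zero tl_eq bd_hm ai_tri)

/-- the mean of a product of harmonic sums -/
noncomputable def HM (M : Multiset ℕ) (x : ℂ) : ℂ := Em x fun j => (M.map fun k => hm k j).prod

theorem HM_coe (M : List ℕ) (hM : ∀ k ∈ M, 2 ≤ k) (x : ℂ) : HM M x = ((prd M).map fun u => Em x (mh u)).sum := by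
  rw [← (Em_list x (prd M) fun u hu => (prd_fact hu).2.2.2.2 hM).2, HM]
  congr 1
  funext j
  rw [Multiset.map_coe, Multiset.prod_coe, prd_prod]

/-- an element of a list with a nonzero multiplicity -/
theorem list_extract {K : Subfield ℂ} {α : Type*} (z : α → ℂ) (u : α) (L : List α) (h : ∀ v ∈ L, v ≠ u → z v ∈ K) :
    ∃ (n : ℕ) (c : ℂ), c ∈ K ∧ (L.map z).sum = n * z u + c ∧ (u ∈ L → n ≠ 0) := by
  classical
  induction L with
  | nil => exact ⟨0, 0, K.zero_mem, by simp, by simp⟩
  | cons a L ih =>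
    obtain ⟨n, c, hc, hs, hn⟩ := ih fun v hv => h v (List.mem_cons_of_mem _ hv)
    by_cases hau : a = u
    · refine ⟨n + 1, c, hc, ?_, fun _ => Nat.succ_ne_zero n⟩
      rw [List.map_cons, List.sum_cons, hs, hau]
      push_cast
      ring
    · refine ⟨n, z a + c, K.add_mem (h a List.mem_cons_self hau) hc, ?_, fun hu => ?_⟩
      · rw [List.map_cons, List.sum_cons, hs]; ring
      · rcases List.mem_cons.1 hu with h1 | h1
        · exact absurd h1.symm hau
        · exact hn h1

theorem finite_lists (W : ℕ) : {u : List ℕ | (∀ k ∈ u, 2 ≤ k) ∧ u.sum ≤ W}.Finite := by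
  have h1 : {l : List (Fin (W + 1)) | l.length ≤ W}.Finite := List.finite_length_le _ _
  refine (h1.image (List.map Fin.val)).subset ?_
  rintro u ⟨hu, hW⟩
  have hlen : ∀ u : List ℕ, (∀ k ∈ u, 2 ≤ k) → u.length ≤ u.sum := by
    intro u
    induction u with
    | nil => simp
    | cons a u ih =>
      intro h
      have h1 := h a List.mem_cons_self
      have h2 := ih fun k hk => h k (List.mem_cons_of_mem _ hk)
      simp only [List.length_cons, List.sum_cons]
      omega
  have hle : ∀ k ∈ u, k < W + 1 := fun k hk => by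
    have := List.single_le_sum (fun _ _ => Nat.zero_le _) k hk
    omega
  refine ⟨u.pmap (fun k hk => (⟨k, hk⟩ : Fin (W + 1))) hle, ?_, ?_⟩
  · show (u.pmap (fun k hk => (⟨k, hk⟩ : Fin (W + 1))) hle).length ≤ W
    rw [List.length_pmap]
    exact (hlen u hu).trans hW
  · rw [List.map_pmap]
    simp

open Classical in
/-- sorted lists: the means of the products; other lists: the means of the multiple harmonic sums -/
noncomputable def wv {X : Set ℂ} (p : IL X) : ℂ :=
  if p.1.2.Pairwise (· ≤ ·) then HM p.1.2 p.1.1 else Em p.1.1 (mh p.1.2)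

theorem ai_wv (X : Set ℂ) (hX : ∀ x ∈ X, IsAlgebraic ℚ x ∧ ∀ y ∈ X, x + y ≠ 0) :
    AlgebraicIndependent KK (wv (X := X)) := by
  classical
  refine ai_tri (ai_mh X hX) ?_
  rintro ⟨⟨x, s⟩, hx, hs, hs2⟩
  have hfin : {q : IL X | q.1.1 = x ∧ q.1.2.sum ≤ s.sum}.Finite := by
    refine Set.Finite.of_injOn (f := fun q : IL X => q.1.2) (t := {u : List ℕ | (∀ k ∈ u, 2 ≤ k) ∧ u.sum ≤ s.sum}) ?_ ?_
      (finite_lists s.sum)
    · rintro q ⟨-, hq⟩
      exact ⟨q.2.2.2, hq⟩
    · rintro p ⟨hp, -⟩ q ⟨hq, -⟩ hpq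
      exact Subtype.ext (Prod.ext (hp.trans hq.symm) hpq)
  refine ⟨hfin.toFinset, by simp, ?_⟩
  set D := hfin.toFinset with hD
  have key : ∀ (n : ℕ) (q : IL X), q ∈ D → q.1.2.length = n → Em q.1.1 (mh q.1.2) ∈ clf KK (wv '' (D : Set (IL X))) := by
    intro n
    induction n using Nat.strong_induction_on with
    | _ n ih =>
      intro q hq hn
      obtain ⟨⟨x', u⟩, hx', hu, hu2⟩ := q
      have hq' : x' = x ∧ u.sum ≤ s.sum := by
        have := (Set.Finite.mem_toFinset hfin).1 hq
        exact this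
      obtain ⟨rfl, hus⟩ := hq'
      have hn' : u.length = n := hn
      have hw : wv ⟨(x', u), hx', hu, hu2⟩ ∈ clf KK (wv '' (D : Set (IL X))) := subset_clf _ ⟨_, Finset.mem_coe.2 hq, rfl⟩
      by_cases hsort : u.Pairwise (· ≤ ·)
      · have h1 : wv (X := X) ⟨(x', u), hx', hu, hu2⟩ = HM u x' := if_pos hsort
        rw [h1, HM_coe u hu2] at hw
        have h2 : ∀ v ∈ prd u, v ≠ u → Em x' (mh v) ∈ clf KK (wv '' (D : Set (IL X))) := by
          intro v hv hvu
          obtain ⟨a1, a2, a3, a4, a5⟩ := prd_fact hv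
          have hvD : (⟨(x', v), hx', a1 hu, a5 hu2⟩ : IL X) ∈ D :=
            (Set.Finite.mem_toFinset hfin).2 ⟨rfl, by show v.sum ≤ s.sum; rw [a2]; exact hus⟩
          rcases Nat.lt_or_ge v.length u.length with h3 | h3
          · exact ih v.length (by omega) ⟨(x', v), hx', a1 hu, a5 hu2⟩ hvD rfl
          · have h4 : v.Perm u := a4 (by omega)
            have h5 : ¬ v.Pairwise (· ≤ ·) := fun h => hvu (List.Perm.eq_of_pairwise (fun a b _ _ hab hba => le_antisymm hab hba) h hsort h4)
            have h6 : wv (X := X) ⟨(x', v), hx', a1 hu, a5 hu2⟩ = Em x' (mh v) := if_neg h5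
            rw [← h6]
            exact subset_clf _ ⟨_, Finset.mem_coe.2 hvD, rfl⟩
        obtain ⟨m, c, hc, hsum, hm⟩ := list_extract (K := clf KK (wv '' (D : Set (IL X)))) (fun v => Em x' (mh v)) u (prd u) h2
        have hm0 := hm (self_mem_prd u)
        rw [hsum] at hw
        have h7 : Em x' (mh u) = ((m : ℂ) * Em x' (mh u) + c - c) / m := by
          have : (m : ℂ) ≠ 0 := by exact_mod_cast hm0
          field_simp
          ring
        show Em x' (mh u) ∈ _
        rw [h7]
        exact (clf KK _).div_mem ((clf KK _).sub_mem hw hc) (natCast_mem _ m)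
      · have h1 : wv (X := X) ⟨(x', u), hx', hu, hu2⟩ = Em x' (mh u) := if_neg hsort
        rwa [h1] at hw
  intro j hj
  exact key _ j hj rfl

/-- the index sets of the moments -/
abbrev IM (X : Set ℂ) : Type := {p : ℂ × Multiset ℕ // p.1 ∈ X ∧ p.2 ≠ 0 ∧ ∀ k ∈ p.2, 2 ≤ k}

/-- all moments of the harmonic sums are algebraically independent -/
theorem ai_HM (X : Set ℂ) (hX : ∀ x ∈ X, IsAlgebraic ℚ x ∧ ∀ y ∈ X, x + y ≠ 0) :
    AlgebraicIndependent KK (fun p : IM X => HM p.1.2 p.1.1) := by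
  classical
  let g : IM X → IL X := fun p => ⟨(p.1.1, p.1.2.sort (· ≤ ·)), p.2.1, fun h => p.2.2.1 (by
    have h' : p.1.2.sort (· ≤ ·) = [] := h
    rw [← Multiset.sort_eq p.1.2 (· ≤ ·), h']; rfl), fun k hk => p.2.2.2 k (by rwa [Multiset.mem_sort] at hk)⟩
  have hg : Function.Injective g := by
    intro p q hpq
    have h1 : p.1.1 = q.1.1 := congrArg (fun z => z.1.1) hpq
    have h2 : p.1.2.sort (· ≤ ·) = q.1.2.sort (· ≤ ·) := congrArg (fun z => z.1.2) hpq
    refine Subtype.ext (Prod.ext h1 ?_)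
    rw [← Multiset.sort_eq p.1.2 (· ≤ ·), h2, Multiset.sort_eq]
  have h2 := (ai_wv X hX).comp g hg
  have h3 : wv ∘ g = fun p : IM X => HM p.1.2 p.1.1 := by
    funext p
    show wv (g p) = _
    rw [wv, if_pos]
    · show HM ((p.1.2.sort (· ≤ ·) : List ℕ) : Multiset ℕ) p.1.1 = _
      rw [Multiset.sort_eq]
    · exact Multiset.pairwise_sort _ _
  rw [h3] at h2
  exact h2

/-! ### The moments of the tails -/

/-- the moments of the tails -/
noncomputable def TM (M : Multiset ℕ) (x : ℂ) : ℂ := Em x fun j => (M.map fun k => tl k j).prod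

theorem bd_tl {k : ℕ} (hk : 2 ≤ k) : Bd (tl k) := by
  have h := (Bd.const (riemannZeta k)).add ((bd_hm hk).const_mul (-1))
  have e : (fun j => riemannZeta k + -1 * hm k j) = tl k := by
    funext j
    rw [tl_eq hk]; ring
  rwa [e] at h

theorem bd_listprod (A : List ℕ) (f : ℕ → ℕ → ℂ) (hA : ∀ k ∈ A, Bd (f k)) : Bd fun j => (A.map fun k => f k j).prod := by
  induction A with
  | nil => simpa using Bd.const 1
  | cons k A ih =>
    simp only [List.map_cons, List.prod_cons]
    exact (hA k List.mem_cons_self).mul (ih fun l hl => hA l (List.mem_cons_of_mem _ hl))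

theorem bd_msprod (P : Multiset ℕ) (f : ℕ → ℕ → ℂ) (hP : ∀ k ∈ P, Bd (f k)) : Bd fun j => (P.map fun k => f k j).prod := by
  induction P using Quotient.inductionOn with
  | _ A => simpa using bd_listprod A f (by simpa using hP)

/-- the mean of a mixed product -/
noncomputable def EE (A : List ℕ) (P : Multiset ℕ) (x : ℂ) : ℂ :=
  Em x fun j => (A.map fun k => hm k j).prod * (P.map fun k => tl k j).prod

theorem EE_cons {k : ℕ} (hk : 2 ≤ k) {A : List ℕ} (hA : ∀ l ∈ A, 2 ≤ l) {P : Multiset ℕ} (hP : ∀ l ∈ P, 2 ≤ l) (x : ℂ) :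
    EE (k :: A) P x = riemannZeta k * EE A P x + (-1) * EE A (k ::ₘ P) x := by
  have b1 : Bd fun j => (A.map fun k => hm k j).prod := bd_listprod A hm fun l hl => bd_hm (hA l hl)
  have b2 : Bd fun j => (P.map fun k => tl k j).prod := bd_msprod P tl fun l hl => bd_tl (hP l hl)
  have b3 : Bd fun j => ((k ::ₘ P).map fun k => tl k j).prod := bd_msprod _ tl fun l hl => by
    rcases Multiset.mem_cons.1 hl with rfl | hl
    · exact bd_tl hk
    · exact bd_tl (hP l hl)
  have h : EE (k :: A) P x = Em x fun j => riemannZeta k * ((A.map fun k => hm k j).prod * (P.map fun k => tl k j).prod) +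
      (-1) * ((A.map fun k => hm k j).prod * ((k ::ₘ P).map fun k => tl k j).prod) := by
    rw [EE]
    congr 1
    funext j
    rw [List.map_cons, List.prod_cons, Multiset.map_cons, Multiset.prod_cons, tl_eq hk]
    ring
  rw [h, Em_add ((b1.mul b2).const_mul _) ((b1.mul b3).const_mul _), Em_mul, Em_mul]
  rfl

theorem EE_mem {K : Subfield ℂ} (x : ℂ) (A : List ℕ) : ∀ P : Multiset ℕ, (∀ k ∈ A, 2 ≤ k) → (∀ k ∈ P, 2 ≤ k) →
    (∀ k ∈ A, riemannZeta k ∈ K) → (∀ Q : Multiset ℕ, P ≤ Q → Q ≤ A + P → TM Q x ∈ K) → EE A P x ∈ K := by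
  induction A with
  | nil =>
    intro P _ _ _ hQ
    have := hQ P le_rfl (by simp)
    have e : EE [] P x = TM P x := by
      rw [EE, TM]
      congr 1
      funext j
      simp
    rw [e]
    exact this
  | cons k A ih =>
    intro P hA hP hz hQ
    have hk := hA k List.mem_cons_self
    have hA' : ∀ l ∈ A, 2 ≤ l := fun l hl => hA l (List.mem_cons_of_mem _ hl)
    have hz' : ∀ l ∈ A, riemannZeta l ∈ K := fun l hl => hz l (List.mem_cons_of_mem _ hl)
    rw [EE_cons hk hA' hP]
    have e1 : ((k :: A : List ℕ) : Multiset ℕ) = k ::ₘ (A : Multiset ℕ) := rfl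
    refine K.add_mem (K.mul_mem (hz k List.mem_cons_self) (ih P hA' hP hz' fun Q h1 h2 => hQ Q h1 (h2.trans ?_)))
      (K.mul_mem (K.neg_mem K.one_mem) (ih (k ::ₘ P) hA' ?_ hz' fun Q h1 h2 => hQ Q ?_ ?_))
    · rw [e1, Multiset.cons_add]
      exact Multiset.le_cons_self _ _
    · intro l hl
      rcases Multiset.mem_cons.1 hl with rfl | hl
      · exact hk
      · exact hP l hl
    · exact (Multiset.le_cons_self _ _).trans h1
    · rw [e1, Multiset.cons_add, ← Multiset.add_cons]
      exact h2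

/-- the moments of the harmonic sums from the moments of the tails -/
theorem HM_mem {K : Subfield ℂ} {x : ℂ} {M : Multiset ℕ} (hM : ∀ k ∈ M, 2 ≤ k) (hz : ∀ k ∈ M, riemannZeta k ∈ K)
    (hQ : ∀ Q : Multiset ℕ, Q ≠ 0 → Q ≤ M → TM Q x ∈ K) : HM M x ∈ K := by
  have e : HM M x = EE M.toList 0 x := by
    unfold EE HM
    congr 1
    funext j
    rw [Multiset.map_zero, Multiset.prod_zero, mul_one, ← Multiset.prod_coe, ← Multiset.map_coe, Multiset.coe_toList]
  rw [e]
  refine EE_mem x M.toList 0 (fun k hk => hM k (Multiset.mem_toList.1 hk)) (by simp)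
    (fun k hk => hz k (Multiset.mem_toList.1 hk)) fun Q _ h2 => ?_
  by_cases h0 : Q = 0
  · subst h0
    have : TM 0 x = 1 := by
      unfold TM
      simpa using Em_const 1 x
    rw [this]
    exact K.one_mem
  · refine hQ Q h0 ?_
    rwa [Multiset.coe_toList, add_zero] at h2

end Pool.Agent.H18.Mo
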