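import Pool.Agent.H18.Mo.AI
import Pool.Agent.H18.Pr.Mean

/-!
# Products of harmonic sums
-/

set_option autoImplicit false
set_option linter.unusedSectionVars false

open Set

namespace Pool.Agent.H18.Mo

open Pool.Agent.N902.EW Pool.Agent.H18.Wd

open Pool.Agent.H18.Pr (Em Bd hm tl Em_add Em_mul Em_const Em_zero tl_eq bd_hm ai_tri)

/-- the multiple harmonic sums -/
noncomputable def mh : List ℕ → ℕ → ℂ
  | [], _ => 1
  | k :: s, n => ∑ b ∈ Finset.range n, mh s b / ((b : ℂ) + 1) ^ k

theorem mh_nil (n : ℕ) : mh [] n = 1 := rfl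

theorem mh_cons (k : ℕ) (s : List ℕ) (n : ℕ) : mh (k :: s) n = ∑ b ∈ Finset.range n, mh s b / ((b : ℂ) + 1) ^ k := rfl

theorem mh_zero (k : ℕ) (s : List ℕ) : mh (k :: s) 0 = 0 := by
  rw [mh_cons, Finset.sum_range_zero]

theorem mh_succ (k : ℕ) (s : List ℕ) (n : ℕ) : mh (k :: s) (n + 1) = mh (k :: s) n + mh s n / ((n : ℂ) + 1) ^ k := by
  rw [mh_cons, mh_cons, Finset.sum_range_succ]

theorem mh_single (k n : ℕ) : mh [k] n = hm k n := rfl

theorem hm_zero (k : ℕ) : hm k 0 = 0 := by
  rw [hm, Finset.sum_range_zero]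

theorem hm_succ (k n : ℕ) : hm k (n + 1) = hm k n + 1 / ((n : ℂ) + 1) ^ k := by
  rw [hm, hm, Finset.sum_range_succ]

/-- the terms of the product of a harmonic sum and a multiple harmonic sum -/
def qins (k : ℕ) : List ℕ → List (List ℕ)
  | [] => [[k]]
  | l :: s => (k :: l :: s) :: ((k + l) :: s) :: (qins k s).map (List.cons l)

theorem sum_cons_succ (l n : ℕ) (L : List (List ℕ)) :
    ((L.map (List.cons l)).map fun u => mh u (n + 1)).sum =
      ((L.map (List.cons l)).map fun u => mh u n).sum + (L.map fun u => mh u n).sum / ((n : ℂ) + 1) ^ l := by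
  induction L with
  | nil => simp
  | cons a L ih =>
    simp only [List.map_cons, List.sum_cons]
    rw [ih, mh_succ, add_div]
    ring

theorem sum_cons_zero (l : ℕ) (L : List (List ℕ)) : ((L.map (List.cons l)).map fun u => mh u 0).sum = 0 := by
  induction L with
  | nil => simp
  | cons a L ih =>
    simp only [List.map_cons, List.sum_cons]
    rw [ih, mh_zero, add_zero]

theorem qins_prod (k : ℕ) (s : List ℕ) : ∀ n : ℕ, hm k n * mh s n = ((qins k s).map fun u => mh u n).sum := by
  induction s with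
  | nil =>
    intro n
    rw [qins, List.map_cons, List.map_nil, List.sum_cons, List.sum_nil, add_zero, mh_single, mh_nil, mul_one]
  | cons l s ih =>
    intro n
    rw [qins, List.map_cons, List.map_cons, List.sum_cons, List.sum_cons]
    induction n with
    | zero => rw [hm_zero, zero_mul, mh_zero, mh_zero, sum_cons_zero, add_zero, add_zero]
    | succ n ihn =>
      rw [sum_cons_succ, ← ih n, mh_succ k, mh_succ (k + l), hm_succ, mh_succ l]
      have h3 : ((n : ℂ) + 1) ≠ 0 := by exact_mod_cast Nat.succ_ne_zero n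
      have h4 : (hm k n + 1 / ((n : ℂ) + 1) ^ k) * (mh (l :: s) n + mh s n / ((n : ℂ) + 1) ^ l) =
          hm k n * mh (l :: s) n + mh (l :: s) n / ((n : ℂ) + 1) ^ k + hm k n * mh s n / ((n : ℂ) + 1) ^ l +
            mh s n / ((n : ℂ) + 1) ^ (k + l) := by
        rw [pow_add]
        field_simp
        ring
      rw [h4, ihn]
      ring

/-- the terms of the product of harmonic sums -/
def prd : List ℕ → List (List ℕ)
  | [] => [[]]
  | k :: M => (prd M).flatMap (qins k)

theorem prd_prod (M : List ℕ) (n : ℕ) : (M.map fun k => hm k n).prod = ((prd M).map fun u => mh u n).sum := by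
  induction M with
  | nil => simp [prd, mh_nil]
  | cons k M ih =>
    rw [List.map_cons, List.prod_cons, ih, prd, sum_fm, ← List.sum_map_mul_left]
    congr 1
    exact List.map_congr_left fun u _ => qins_prod k u n

theorem qins_fact {k : ℕ} {s u : List ℕ} (h : u ∈ qins k s) : u ≠ [] ∧ u.sum = k + s.sum ∧ u.length ≤ s.length + 1 ∧
    (u.length = s.length + 1 → u.Perm (k :: s)) ∧ ((2 ≤ k ∧ ∀ l ∈ s, 2 ≤ l) → ∀ l ∈ u, 2 ≤ l) := by
  induction s generalizing u with
  | nil =>
    rw [qins, List.mem_singleton] at h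
    subst h
    simp
  | cons l s ih =>
    rw [qins, List.mem_cons, List.mem_cons, List.mem_map] at h
    rcases h with rfl | rfl | ⟨v, hv, rfl⟩
    · refine ⟨by simp, by simp, by simp, fun _ => List.Perm.refl _, ?_⟩
      rintro ⟨h1, h2⟩ m hm
      rcases List.mem_cons.1 hm with rfl | hm
      · exact h1
      · exact h2 m hm
    · refine ⟨by simp, by simp [add_assoc], by simp, fun h => ?_, ?_⟩
      · simp at h
      · rintro ⟨h1, h2⟩ m hm
        rcases List.mem_cons.1 hm with rfl | hm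
        · omega
        · exact h2 m (List.mem_cons_of_mem _ hm)
    · obtain ⟨h1, h2, h3, h4, h5⟩ := ih hv
      refine ⟨by simp, by simp [h2]; omega, by simp; omega, fun h => ?_, ?_⟩
      · have h6 := h4 (by simpa using h)
        exact (List.Perm.cons l h6).trans (List.Perm.swap k l s)
      · rintro ⟨h7, h8⟩ m hm
        rcases List.mem_cons.1 hm with rfl | hm
        · exact h8 m List.mem_cons_self
        · exact h5 ⟨h7, fun l' hl' => h8 l' (List.mem_cons_of_mem _ hl')⟩ m hm

theorem prd_fact {M u : List ℕ} (h : u ∈ prd M) : (M ≠ [] → u ≠ []) ∧ u.sum = M.sum ∧ u.length ≤ M.length ∧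
    (u.length = M.length → u.Perm M) ∧ ((∀ l ∈ M, 2 ≤ l) → ∀ l ∈ u, 2 ≤ l) := by
  induction M generalizing u with
  | nil =>
    rw [prd, List.mem_singleton] at h
    subst h
    simp
  | cons k M ih =>
    rw [prd, List.mem_flatMap] at h
    obtain ⟨v, hv, hu⟩ := h
    obtain ⟨a1, a2, a3, a4, a5⟩ := ih hv
    obtain ⟨b1, b2, b3, b4, b5⟩ := qins_fact hu
    refine ⟨fun _ => b1, by rw [b2, a2, List.sum_cons], by rw [List.length_cons]; omega, fun h => ?_, fun h => ?_⟩
    · rw [List.length_cons] at h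
      exact (b4 (by omega)).trans (List.Perm.cons k (a4 (by omega)))
    · exact b5 ⟨h k List.mem_cons_self, a5 fun l hl => h l (List.mem_cons_of_mem _ hl)⟩

theorem cons_mem_qins (k : ℕ) (s : List ℕ) : (k :: s) ∈ qins k s := by
  cases s <;> simp [qins]

theorem self_mem_prd (M : List ℕ) : M ∈ prd M := by
  induction M with
  | nil => simp [prd]
  | cons k M ih => exact List.mem_flatMap.2 ⟨M, ih, cons_mem_qins k M⟩

/-! ### Means -/

theorem bd_mh {s : List ℕ} (h : ∀ k ∈ s, 2 ≤ k) : Bd (mh s) := by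
  induction s with
  | nil => exact Bd.const 1
  | cons k s ih =>
    obtain ⟨Z, hZ⟩ := ih fun l hl => h l (List.mem_cons_of_mem _ hl)
    have hk : 2 ≤ k := h k List.mem_cons_self
    have hn : Summable fun i : ℕ => ‖(1 : ℂ) / ((i : ℂ) + 1) ^ k‖ := (summ_zeta hk).norm
    have hZ0 : 0 ≤ Z := (norm_nonneg _).trans (hZ 0)
    refine ⟨Z * ∑' i : ℕ, ‖(1 : ℂ) / ((i : ℂ) + 1) ^ k‖, fun j => ?_⟩
    rw [mh_cons]
    refine (norm_sum_le _ _).trans ?_
    have h1 : ∀ b ∈ Finset.range j, ‖mh s b / ((b : ℂ) + 1) ^ k‖ ≤ Z * ‖(1 : ℂ) / ((b : ℂ) + 1) ^ k‖ := by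
      intro b _
      rw [div_eq_mul_one_div, norm_mul]
      exact mul_le_mul_of_nonneg_right (hZ b) (norm_nonneg _)
    refine (Finset.sum_le_sum h1).trans ?_
    rw [← Finset.mul_sum]
    exact mul_le_mul_of_nonneg_left (hn.sum_le_tsum _ fun _ _ => norm_nonneg _) hZ0

theorem Em_list (x : ℂ) (L : List (List ℕ)) (h : ∀ u ∈ L, ∀ k ∈ u, 2 ≤ k) :
    (Bd fun j => (L.map fun u => mh u j).sum) ∧
    Em x (fun j => (L.map fun u => mh u j).sum) = (L.map fun u => Em x (mh u)).sum := by
  induction L with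
  | nil =>
    refine ⟨?_, ?_⟩
    · simpa using Bd.const 0
    · simpa using Em_const 0 x
  | cons a L ih =>
    obtain ⟨h1, h2⟩ := ih fun u hu => h u (List.mem_cons_of_mem _ hu)
    have h3 := bd_mh (h a List.mem_cons_self)
    simp only [List.map_cons, List.sum_cons]
    exact ⟨h3.add h1, by rw [Em_add h3 h1, h2]⟩

/-- the means of the multiple harmonic sums -/
theorem Em_mh {s : List ℕ} (h : ∀ k ∈ s, 2 ≤ k) (x : ℂ) : Em x (mh s) = PM (s.map fun k => k - 2) x := by
  have h1 : ∀ (s : List ℕ), (∀ k ∈ s, 2 ≤ k) → ∀ j, mh s j = hs ℂ (s.map fun k => k - 2) j := by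
    intro s
    induction s with
    | nil => intro _ j; rfl
    | cons k s ih =>
      intro h j
      rw [mh_cons, List.map_cons, hs]
      refine Finset.sum_congr rfl fun b _ => ?_
      have hk := h k List.mem_cons_self
      rw [ih fun l hl => h l (List.mem_cons_of_mem _ hl), Nat.sub_add_cancel hk]
  rw [Em, PM]
  congr 1
  exact tsum_congr fun j => by rw [h1 s h]

/-- the index sets -/
abbrev IL (X : Set ℂ) : Type := {p : ℂ × List ℕ // p.1 ∈ X ∧ p.2 ≠ [] ∧ ∀ k ∈ p.2, 2 ≤ k}

theorem ai_mh (X : Set ℂ) (hX : ∀ x ∈ X, IsAlgebraic ℚ x ∧ ∀ y ∈ X, x + y ≠ 0) :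
    AlgebraicIndependent KK (fun p : IL X => Em p.1.1 (mh p.1.2)) := by
  have h := ai_PM X hX
  let g : IL X → {p : X × List ℕ // p.2 ≠ []} := fun p =>
    ⟨(⟨p.1.1, p.2.1⟩, p.1.2.map fun k => k - 2), by simpa using p.2.2.1⟩
  have hg : Function.Injective g := by
    intro p q hpq
    have h1 : p.1.1 = q.1.1 := congrArg (fun z => z.1.1.1) hpq
    have h2 : (p.1.2.map fun k => k - 2) = q.1.2.map fun k => k - 2 := congrArg (fun z => z.1.2) hpq
    have h3 : ∀ s : List ℕ, (∀ k ∈ s, 2 ≤ k) → (s.map fun k => k - 2).map (fun k => k + 2) = s := by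
      intro s hs
      rw [List.map_map]
      conv_rhs => rw [← List.map_id s]
      refine List.map_congr_left fun k hk => ?_
      have := hs k hk
      simp only [Function.comp, id]
      omega
    refine Subtype.ext (Prod.ext h1 ?_)
    rw [← h3 _ p.2.2.2, ← h3 _ q.2.2.2, h2]
  have h2 := h.comp g hg
  have h3 : (fun p : {p : X × List ℕ // p.2 ≠ []} => PM p.1.2 p.1.1.1) ∘ g = fun p : IL X => Em p.1.1 (mh p.1.2) := by
    funext p
    show PM (p.1.2.map fun k => k - 2) p.1.1 = _
    rw [Em_mh p.2.2.2]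
  rw [h3] at h2
  exact h2

end Pool.Agent.H18.Mo
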