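import Pool.Agent.H18.Mo.Mom
import Pool.Agent.H18.Sq.Quo

/-!
# Counting for all moments of the tails
-/

set_option autoImplicit false
set_option linter.unusedSectionVars false

open Set

namespace Pool.Agent.H18.Mo

open Pool.Agent.N902.EW Pool.Agent.H18.Wd

open Pool.Agent.H18.Pr (Em ai_tri)

open Pool.Agent.H18.Sq (zeta_even_mem zeta_ne_zero')

/-- the admissible multisets -/
def Am (N : Set ℕ) (M : Multiset ℕ) : Prop := M ≠ 0 ∧ ∀ k ∈ M, 2 ≤ k ∧ (Even k ∨ k ∈ N)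

/-- the quotients -/
noncomputable def UQ (M : Multiset ℕ) (x : ℂ) : ℂ := (M.map fun k => riemannZeta ((2 * k : ℕ) : ℂ)).prod / TM M x ^ 2

theorem Am.le {N : Set ℕ} {M Q : Multiset ℕ} (h : Am N M) (h0 : Q ≠ 0) (hQ : Q ≤ M) : Am N Q :=
  ⟨h0, fun k hk => h.2 k (Multiset.mem_of_le hQ hk)⟩

/-- the zeta values -/
theorem zeta_mem {L : Subfield ℂ} (hpi : (Real.pi : ℂ) ∈ L) {N : Set ℕ} (hz : ∀ n ∈ N, riemannZeta n ∈ L) {k : ℕ}
    (hk : 2 ≤ k ∧ (Even k ∨ k ∈ N)) : riemannZeta k ∈ L := by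
  rcases hk.2 with h | h
  · obtain ⟨m, rfl⟩ := h
    have h1 := zeta_even_mem hpi (n := m) (by omega)
    rwa [two_mul] at h1
  · exact hz k h

theorem msprod_mem {L : Subfield ℂ} (M : Multiset ℕ) (f : ℕ → ℂ) (h : ∀ k ∈ M, f k ∈ L) : (M.map f).prod ∈ L := by
  refine multiset_prod_mem _ fun a ha => ?_
  obtain ⟨k, hk, rfl⟩ := Multiset.mem_map.1 ha
  exact h k hk

theorem msprod_ne (M : Multiset ℕ) (f : ℕ → ℂ) (h : ∀ k ∈ M, f k ≠ 0) : (M.map f).prod ≠ 0 := by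
  refine Multiset.prod_ne_zero fun h0 => ?_
  obtain ⟨k, hk, hk'⟩ := Multiset.mem_map.1 h0
  exact h k hk hk'

/-- the moment from the quotient -/
theorem TM_mem {L : Subfield ℂ} (hroot : ∀ z : ℂ, z ^ 2 ∈ L → z ∈ L) (hpi : (Real.pi : ℂ) ∈ L) {N : Set ℕ}
    {M : Multiset ℕ} (hM : Am N M) {x : ℂ} (h : UQ M x ∈ L) : TM M x ∈ L := by
  by_cases h0 : TM M x = 0
  · rw [h0]; exact L.zero_mem
  · refine hroot _ ?_
    have h1 : (M.map fun k => riemannZeta ((2 * k : ℕ) : ℂ)).prod ∈ L := msprod_mem M _ fun k hk => by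
      have := (hM.2 k hk).1
      exact zeta_even_mem hpi (by omega)
    have h2 : (M.map fun k => riemannZeta ((2 * k : ℕ) : ℂ)).prod ≠ 0 := msprod_ne M _ fun k hk => by
      have := (hM.2 k hk).1
      exact zeta_ne_zero' (by omega)
    have h3 := L.div_mem h1 h
    have h4 : (M.map fun k => riemannZeta ((2 * k : ℕ) : ℂ)).prod / UQ M x = TM M x ^ 2 := by
      rw [UQ]; field_simp
    rwa [h4] at h3

section

variable {X : Set ℂ} {N : Set ℕ}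

/-- the names -/
abbrev Nq (X : Set ℂ) (N : Set ℕ) : Type := {p : ℂ × Multiset ℕ // p.1 ∈ X ∧ Am N p.2}

theorem ai_Nq (hX : ∀ x ∈ X, IsAlgebraic ℚ x ∧ ∀ y ∈ X, x + y ≠ 0) :
    AlgebraicIndependent KK (fun q : Nq X N => HM q.1.2 q.1.1) := by
  refine (ai_HM X hX).comp (fun q : Nq X N => (⟨q.1, q.2.1, q.2.2.1, fun k hk => (q.2.2.2 k hk).1⟩ : IM X)) ?_
  intro p q h
  exact Subtype.ext (congrArg (fun z => z.1) h)

theorem finite_le (M : Multiset ℕ) : {Q : Multiset ℕ | Q ≤ M}.Finite := by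
  classical
  refine (M.powerset.toFinset : Finset (Multiset ℕ)).finite_toSet.subset ?_
  intro Q hQ
  simpa using hQ

theorem tri_q {Y : Set ℂ} (hpi : (Real.pi : ℂ) ∈ clf KK Y) (hz : ∀ n ∈ N, riemannZeta n ∈ clf KK Y) (i : Nq X N) :
    ∃ D : Finset (Nq X N), i ∈ D ∧ ∀ j ∈ D, HM j.1.2 j.1.1 ∈ clf KK (Y ∪ (fun q : Nq X N => UQ q.1.2 q.1.1) '' (D : Set (Nq X N))) := by
  classical
  obtain ⟨⟨x, M⟩, hx, hM⟩ := i
  have hfin : {q : Nq X N | q.1.1 = x ∧ q.1.2 ≤ M}.Finite := by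
    refine Set.Finite.of_injOn (f := fun q : Nq X N => q.1.2) (t := {Q : Multiset ℕ | Q ≤ M}) ?_ ?_ (finite_le M)
    · rintro q ⟨-, hq⟩; exact hq
    · rintro p ⟨hp, -⟩ q ⟨hq, -⟩ hpq
      exact Subtype.ext (Prod.ext (hp.trans hq.symm) hpq)
  refine ⟨hfin.toFinset, by simp, ?_⟩
  intro j hj
  obtain ⟨⟨x', Q⟩, hx', hQ⟩ := j
  obtain ⟨hxx, hQM⟩ : x' = x ∧ Q ≤ M := (Set.Finite.mem_toFinset hfin).1 hj
  subst hxx
  set S : Set ℂ := Y ∪ (fun q : Nq X N => UQ q.1.2 q.1.1) '' ((hfin.toFinset : Finset (Nq X N)) : Set (Nq X N)) with hS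
  have hsub : Y ⊆ S := subset_union_left
  show HM Q x' ∈ clf KK S
  refine HM_mem (fun k hk => (hQ.2 k hk).1) (fun k hk => zeta_mem (clf_mono hsub hpi) (fun n hn => clf_mono hsub (hz n hn)) (hQ.2 k hk)) ?_
  intro R hR0 hRQ
  have hR : Am N R := hQ.le hR0 hRQ
  refine TM_mem (fun z hz' => clf_pow two_ne_zero hz') (clf_mono hsub hpi) hR ?_
  refine subset_clf _ (Or.inr ⟨⟨(x', R), hx', hR⟩, ?_, rfl⟩)
  exact Finset.mem_coe.2 ((Set.Finite.mem_toFinset hfin).2 ⟨rfl, hRQ.trans hQM⟩)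

variable {r : ℕ} {y : Fin r → ℂ}

theorem count_q (hX : ∀ x ∈ X, IsAlgebraic ℚ x ∧ ∀ y ∈ X, x + y ≠ 0)
    (hpi : (Real.pi : ℂ) ∈ clf KK (range y)) (hz : ∀ n ∈ N, riemannZeta n ∈ clf KK (range y)) :
    {n : Fin r ⊕ Nq X N | Sum.elim (fun j => IsAlgebraic KK (y j)) (fun i => IsAlgebraic KK (UQ i.1.2 i.1.1)) n}.encard ≤
      (r : ℕ∞) := by
  have h := cnt (y := y) (ai_Nq (N := N) hX) (tri_q hpi hz)
  rwa [Fintype.card_fin] at h

theorem trdeg_q (hX : ∀ x ∈ X, IsAlgebraic ℚ x ∧ ∀ y ∈ X, x + y ≠ 0)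
    (hpi : (Real.pi : ℂ) ∈ clf KK (range y)) (hz : ∀ n ∈ N, riemannZeta n ∈ clf KK (range y)) (A : Finset (Nq X N)) :
    (A.card : Cardinal) ≤ Algebra.trdeg KK
      (IntermediateField.adjoin KK (range y ∪ (fun q : Nq X N => UQ q.1.2 q.1.1) '' (A : Set (Nq X N)))) :=
  trdeg_of_eRk (rk_ge (ai_Nq (N := N) hX) (tri_q hpi hz) A)

theorem tri_at {F : Type*} [Field F] [Algebra F ℂ] {x : ℂ} {t : {M : Multiset ℕ // Am N M} → ℂ}
    (hs : AlgebraicIndependent F (fun M : {M : Multiset ℕ // Am N M} => HM M.1 x))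
    (hz : ∀ n ∈ N, IsAlgebraic F (riemannZeta n)) (hpi : IsAlgebraic F (Real.pi : ℂ))
    (ht : ∀ (M : {M : Multiset ℕ // Am N M}) (S : Set ℂ), t M ∈ clf F S → TM M.1 x ∈ clf F S) : AlgebraicIndependent F t := by
  classical
  refine ai_tri hs ?_
  rintro ⟨M, hM⟩
  have hfin : {Q : {M : Multiset ℕ // Am N M} | Q.1 ≤ M}.Finite := by
    refine Set.Finite.of_injOn (f := fun q : {M : Multiset ℕ // Am N M} => q.1) (t := {Q : Multiset ℕ | Q ≤ M}) ?_ ?_ (finite_le M)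
    · intro q hq; exact hq
    · intro p _ q _ hpq
      exact Subtype.ext hpq
  refine ⟨hfin.toFinset, by simp, ?_⟩
  rintro ⟨Q, hQ⟩ hj
  have hQM : Q ≤ M := (Set.Finite.mem_toFinset hfin).1 hj
  show HM Q x ∈ _
  refine HM_mem (fun k hk => (hQ.2 k hk).1) (fun k hk => zeta_mem (clf_of_alg hpi) (fun n hn => clf_of_alg (hz n hn)) (hQ.2 k hk)) ?_
  intro R hR0 hRQ
  have hR : Am N R := hQ.le hR0 hRQ
  refine ht ⟨R, hR⟩ _ (subset_clf _ ⟨⟨R, hR⟩, ?_, rfl⟩)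
  exact Finset.mem_coe.2 ((Set.Finite.mem_toFinset hfin).2 (hRQ.trans hQM))

/-- the exceptional points -/
theorem exc_q (hX : ∀ x ∈ X, IsAlgebraic ℚ x ∧ ∀ y ∈ X, x + y ≠ 0)
    (hpi : (Real.pi : ℂ) ∈ clf KK (range y)) (hz : ∀ n ∈ N, riemannZeta n ∈ clf KK (range y)) :
    {x | x ∈ X ∧ ¬ (AlgebraicIndependent (IntermediateField.adjoin KK (range y))
        (fun M : {M : Multiset ℕ // Am N M} => TM M.1 x) ∧
      AlgebraicIndependent (IntermediateField.adjoin KK (range y))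
        (fun M : {M : Multiset ℕ // Am N M} => UQ M.1 x))}.encard ≤ (r : ℕ∞) := by
  have hs : AlgebraicIndependent KK (fun p : X × {M : Multiset ℕ // Am N M} => HM p.2.1 p.1.1) := by
    refine (ai_Nq (X := X) (N := N) hX).comp (fun p : X × {M : Multiset ℕ // Am N M} => (⟨(p.1.1, p.2.1), p.1.2, p.2.2⟩ : Nq X N)) ?_
    intro p q h
    have h1 := congrArg (fun z => z.1.1) h
    have h2 := congrArg (fun z => z.1.2) h
    exact Prod.ext (Subtype.ext h1) (Subtype.ext h2)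
  have h0 := exceptions (s := fun p : X × {M : Multiset ℕ // Am N M} => HM p.2.1 p.1.1) hs y
    (fun (x : X) (M : {M : Multiset ℕ // Am N M}) => HM M.1 x.1) (fun x p => subset_clf _ (mem_insert _ _))
  refine le_trans ?_ h0
  rw [← Subtype.val_injective.encard_image]
  refine encard_le_encard ?_
  rintro x ⟨hx, hx'⟩
  refine ⟨⟨x, hx⟩, ?_, rfl⟩
  intro hs'
  refine hx' ?_
  have hpi' : IsAlgebraic (IntermediateField.adjoin KK (range y)) (Real.pi : ℂ) := mem_clf.1 hpi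
  have hz' : ∀ n ∈ N, IsAlgebraic (IntermediateField.adjoin KK (range y)) (riemannZeta n) := fun n hn => mem_clf.1 (hz n hn)
  refine ⟨tri_at hs' hz' hpi' fun M S h => h, tri_at hs' hz' hpi' fun M S h => ?_⟩
  exact TM_mem (fun z hz' => clf_pow two_ne_zero hz') (clf_of_alg hpi') M.2 h

end

end Pool.Agent.H18.Mo
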