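import Pool.Agent.H18.Mo.Dual
import Pool.Agent.H18.Sq.Val

/-!
# The elements of the algebra with the values `E_x(S_s)`
-/

set_option autoImplicit false
set_option linter.unusedSectionVars false

open PowerSeries

namespace Pool.Agent.H18.Mo

open Pool.Agent.N902.EW Pool.Agent.H18.Sq

variable {K : Type*} [Field K] [CharZero K]

/-! ### Lists of words -/

/-- the three words -/
noncomputable def w3 (x : K) (m : ℕ) (w : List K) : List (List K) :=
  [pre m (x :: -x :: w), pre m (x :: 0 :: w), pre m (0 :: -x :: w)]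

/-- the inner words -/
noncomputable def Rl (x : K) : List ℕ → ℕ → List (List K)
  | [], m => [pre m [x]]
  | n :: s, m => (Rl x s n).flatMap (w3 x m)

/-- the words -/
noncomputable def Fl (x : K) : List ℕ → List (List K)
  | [] => [[]]
  | m :: s => (Rl x s m).flatMap fun w => [-x :: w, 0 :: w]

theorem sum_fm {M α β : Type*} [AddCommMonoid M] (l : List α) (f : α → List β) (g : β → M) :
    ((l.flatMap f).map g).sum = (l.map fun w => ((f w).map g).sum).sum := by
  induction l with
  | nil => simp
  | cons a l ih => simp [ih]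

theorem ig_zero : ig (0 : K⟦X⟧) = 0 := by
  ext n; rw [coeff_ig]; simp

theorem ig_sub (f g : K⟦X⟧) : ig (f - g) = ig f - ig g := by
  ext n; rw [coeff_ig, map_sub, map_sub, coeff_ig, coeff_ig, sub_div]

theorem ig_sum (c : K⟦X⟧) {α : Type*} (l : List α) (g : α → K⟦X⟧) :
    ig (c * (l.map g).sum) = (l.map fun w => ig (c * g w)).sum := by
  induction l with
  | nil => simp [ig_zero]
  | cons a l ih => rw [List.map_cons, List.sum_cons, mul_add, ig_add, ih, List.map_cons, List.sum_cons]

theorem map_add_sum {α M : Type*} [AddCommMonoid M] (l : List α) (f g : α → M) :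
    (l.map fun w => f w + g w).sum = (l.map f).sum + (l.map g).sum := by
  induction l with
  | nil => simp
  | cons a l ih => simp only [List.map_cons, List.sum_cons, ih]; abel

/-- the multiple harmonic sums (the exponents are the entries plus two) -/
noncomputable def hs (K : Type*) [Field K] : List ℕ → ℕ → K
  | [], _ => 1
  | m :: s, n => ∑ b ∈ Finset.range n, hs K s b / ((b : K) + 1) ^ (m + 2)

theorem hs_succ (m : ℕ) (s : List ℕ) (n : ℕ) : hs K (m :: s) (n + 1) = hs K (m :: s) n + hs K s n / ((n : K) + 1) ^ (m + 2) := by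
  rw [hs, Finset.sum_range_succ, hs]

theorem hs_zero (m : ℕ) (s : List ℕ) : hs K (m :: s) 0 = 0 := by
  rw [hs, Finset.sum_range_zero]

/-- the generating series -/
noncomputable def GS (x : K) (s : List ℕ) : K⟦X⟧ := PowerSeries.mk fun n => x ^ n / n.factorial * hs K s n

/-- the inner series -/
noncomputable def RU (x : K) (s : List ℕ) (m : ℕ) : K⟦X⟧ := ((Rl x s m).map U).sum

theorem Fl_sum {x : K} (hx : x ≠ 0) (s : List ℕ) (m : ℕ) : ((Fl x (m :: s)).map U).sum = ig (ex (-x) * RU x s m) := by
  rw [Fl, sum_fm, RU, ig_sum]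
  congr 1
  refine List.map_congr_left fun w _ => ?_
  rw [List.map_cons, List.map_cons, List.map_nil, List.sum_cons, List.sum_cons, List.sum_nil, add_zero,
    U_two (neg_ne_zero.2 hx)]

/-- the formula for the coefficients implies the value -/
theorem FU_eq {x : K} (hx : x ≠ 0) {s : List ℕ} {m : ℕ}
    (hA : ∀ n, coeff n (RU x s m) = if n = 0 then 0 else x ^ n / n.factorial * hs K s (n - 1) / (n : K) ^ (m + 1)) :
    ((Fl x (m :: s)).map U).sum = ex (-x) * GS x (m :: s) := by
  have h1 : th (GS x (m :: s)) - x • (X * GS x (m :: s)) = RU x s m := by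
    ext n
    rw [map_sub, coeff_smul, coeff_th, hA]
    rcases n with _ | n
    · rw [if_pos rfl]; simp
    · rw [coeff_succ_X_mul, GS, coeff_mk, coeff_mk, if_neg (Nat.succ_ne_zero n), hs_succ, Nat.add_sub_cancel]
      have h1 : ((n + 1).factorial : K) = (n + 1) * n.factorial := by
        rw [Nat.factorial_succ]; push_cast; ring
      have h2 : (n.factorial : K) ≠ 0 := by exact_mod_cast n.factorial_ne_zero
      have h3 : ((n : K) + 1) ≠ 0 := by exact_mod_cast Nat.succ_ne_zero n
      rw [h1, smul_eq_mul, pow_succ x, pow_succ ((n : K) + 1) (m + 1)]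
      push_cast
      field_simp
      ring
  have h2 : th (ex (-x) * GS x (m :: s)) = ex (-x) * RU x s m := by
    rw [← h1, th_mul, th_ex, smul_eq_C_mul, smul_eq_C_mul, map_neg]
    ring
  have h0 : coeff 0 (ex (-x) * GS x (m :: s)) = 0 := by
    rw [coeff_zero_eq_constantCoeff_apply, map_mul, ← coeff_zero_eq_constantCoeff_apply (φ := GS x (m :: s)), GS,
      coeff_mk, hs_zero]
    simp
  rw [Fl_sum hx, ← h2, ig_th h0]

theorem coeff_list_pre (m n : ℕ) (l : List (List K)) (f : List K → List (List K)) :
    coeff n (((l.flatMap fun w => (f w).map (pre m)).map U).sum) = coeff n (((l.flatMap f).map U).sum) / (n : K) ^ m := by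
  have h1 : ∀ l : List (List K), coeff n (((l.map (pre m)).map U).sum) = coeff n ((l.map U).sum) / (n : K) ^ m := by
    intro l
    induction l with
    | nil => simp
    | cons a l ih =>
      rw [List.map_cons, List.map_cons, List.sum_cons, map_add, ih, coeff_U_pre, List.map_cons, List.sum_cons, map_add,
        add_div]
  have h2 : (l.flatMap fun w => (f w).map (pre m)) = (l.flatMap f).map (pre m) := by
    rw [List.map_flatMap]
  rw [h2, h1]

/-- the coefficients of the inner series -/
theorem coeff_RU {x : K} (hx : x ≠ 0) (s : List ℕ) : ∀ (m n : ℕ), coeff n (RU x s m) =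
    if n = 0 then 0 else x ^ n / n.factorial * hs K s (n - 1) / (n : K) ^ (m + 1) := by
  induction s with
  | nil =>
    intro m n
    rw [RU, Rl, List.map_cons, List.map_nil, List.sum_cons, List.sum_nil, add_zero, pre_eq_zs, coeff_U_zs hx, hs, mul_one]
    split_ifs
    · rfl
    · rw [div_div]
  | cons k s ih =>
    intro m n
    have hB := FU_eq hx (ih k)
    have hF := Fl_sum hx s k
    have e1 : RU x (k :: s) m = (((Rl x s k).flatMap fun w =>
        (([x :: -x :: w, x :: 0 :: w, 0 :: -x :: w] : List (List K)).map (pre m))).map U).sum := rfl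
    have e2 : (((Rl x s k).flatMap fun w => ([x :: -x :: w, x :: 0 :: w, 0 :: -x :: w] : List (List K))).map U).sum =
        ig (lt x * ig (ex (-x) * RU x s k)) + ig (ig (lt (-x) * RU x s k)) := by
      rw [sum_fm]
      have e3 : ∀ w : List K, ((([x :: -x :: w, x :: 0 :: w, 0 :: -x :: w] : List (List K)).map U).sum) =
          ig (lt x * ig (ex (-x) * U w)) + ig (ig (lt (-x) * U w)) := by
        intro w
        rw [List.map_cons, List.map_cons, List.map_cons, List.map_nil, List.sum_cons, List.sum_cons, List.sum_cons,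
          List.sum_nil, add_zero, ← U_two (neg_ne_zero.2 hx), mul_add, ig_add, U_cons x, U_cons x, U_cons 0 (-x :: w),
          lt_zero, one_mul, U_cons (-x), add_assoc]
      rw [List.map_congr_left (fun w _ => e3 w), map_add_sum]
      congr 1
      · rw [RU, ig_sum, ig_sum]
      · rw [RU, ig_sum]
        have := ig_sum (1 : K⟦X⟧) (Rl x s k) (fun w => ig (lt (-x) * U w))
        simp only [one_mul] at this
        rw [this]
    rw [e1, coeff_list_pre, e2]
    rw [← hF, hB]
    have e4 : ig (lt (-x) * RU x s k) = ex (-x) * GS x (k :: s) - ig (RU x s k) := by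
      rw [← hB, hF, ← ig_sub, lt_ne (neg_ne_zero.2 hx)]
      congr 1
      ring
    have e5 : lt x * (ex (-x) * GS x (k :: s)) = GS x (k :: s) - ex (-x) * GS x (k :: s) := by
      have h2 : ex x * (ex (-x) * GS x (k :: s)) = GS x (k :: s) := by
        rw [← mul_assoc, ← ex_add, add_neg_cancel, ex_zero, one_mul]
      rw [lt_ne hx, sub_mul, h2, one_mul]
    rw [e4, e5, ← ig_add]
    have e6 : GS x (k :: s) - ex (-x) * GS x (k :: s) + (ex (-x) * GS x (k :: s) - ig (RU x s k)) =
        GS x (k :: s) - ig (RU x s k) := by ring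
    rw [e6, coeff_ig, map_sub, coeff_ig, ih k, GS, coeff_mk]
    rcases n with _ | n
    · simp
    · rw [if_neg (Nat.succ_ne_zero n), if_neg (Nat.succ_ne_zero n), hs_succ, Nat.add_sub_cancel]
      have h3 : ((n : K) + 1) ≠ 0 := by exact_mod_cast Nat.succ_ne_zero n
      push_cast
      rw [pow_succ ((n : K) + 1) (k + 1), pow_succ ((n : K) + 1) m]
      field_simp
      ring

/-! ### Admissibility -/

theorem Rl_adm {x : K} (hx : x ≠ 0) (s : List ℕ) : ∀ (m : ℕ), ∀ w ∈ Rl x s m, Adm w ∧ w ≠ [] := by
  induction s with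
  | nil =>
    intro m w hw
    rw [Rl, List.mem_singleton] at hw
    rw [hw]
    exact adm_pre (adm_single hx) (by simp)
  | cons k s ih =>
    intro m w hw
    rw [Rl, List.mem_flatMap] at hw
    obtain ⟨v, hv, hw⟩ := hw
    obtain ⟨h1, h2⟩ := ih k v hv
    rw [w3, List.mem_cons, List.mem_cons, List.mem_singleton] at hw
    rcases hw with rfl | rfl | rfl
    · exact adm_pre (adm_cons (adm_cons h1 h2) (by simp)) (by simp)
    · exact adm_pre (adm_cons (adm_cons h1 h2) (by simp)) (by simp)
    · exact adm_pre (adm_cons (adm_cons h1 h2) (by simp)) (by simp)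

theorem Fl_adm {x : K} (hx : x ≠ 0) (s : List ℕ) : ∀ w ∈ Fl x s, Adm w := by
  rcases s with _ | ⟨m, s⟩
  · intro w hw
    rw [Fl, List.mem_singleton] at hw
    rw [hw]; trivial
  · intro w hw
    rw [Fl, List.mem_flatMap] at hw
    obtain ⟨v, hv, hw⟩ := hw
    obtain ⟨h1, h2⟩ := Rl_adm hx s m v hv
    rw [List.mem_cons, List.mem_singleton] at hw
    rcases hw with rfl | rfl
    · exact adm_cons h1 h2
    · exact adm_cons h1 h2

/-- the element with the value `E_x(S_s)` -/
noncomputable def Fs (x : K) (s : List ℕ) : AA K := ((Fl x s).map mq).sum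

theorem mq_val {w : List K} (h : Adm w) : (mq w).1 = U w := by
  rw [mq_eq h]
  show ex 0 * U w = U w
  rw [ex_zero, one_mul]

theorem list_val (l : List (List K)) (h : ∀ w ∈ l, Adm w) : ((l.map mq).sum : AA K).1 = (l.map U).sum := by
  induction l with
  | nil => rfl
  | cons a l ih =>
    rw [List.map_cons, List.sum_cons, List.map_cons, List.sum_cons, ← ih fun w hw => h w (List.mem_cons_of_mem _ hw),
      ← mq_val (h a List.mem_cons_self)]
    rfl

theorem Fs_val {x : K} (hx : x ≠ 0) (s : List ℕ) (hs' : s ≠ []) : (Fs x s).1 = ex (-x) * GS x s := by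
  rcases s with _ | ⟨m, s⟩
  · exact absurd rfl hs'
  · rw [Fs, list_val _ (Fl_adm hx _), FU_eq hx (coeff_RU hx s m)]

end Pool.Agent.H18.Mo
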